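import Pool.Agent.H66.Epi.FM

set_option linter.unusedVariables false
set_option linter.unusedSectionVars false
set_option linter.constructorNameAsVariable false

namespace Pool.Agent.H66.Epi

universe u

theorem isoTwo {E : Tm → Tm → Prop} {n : ℕ} (h : CDT.{u} E n) (hC : Models CC E) :
    Iso E (List.range 2) := by
  intro t ht
  obtain ⟨l, hl, hp⟩ := perm_of_CC (by decide) List.nodup_range (hC _ _ ht)
  have hlen := hp.length_eq
  rw [hl]
  match l, hl, hp, hlen with
  | [a, b], hl, hp, _ =>
    have ha : a ∈ List.range 2 := hp.mem_iff.1 (by simp)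
    have hb : b ∈ List.range 2 := hp.mem_iff.1 (by simp)
    have hnd : [a, b].Nodup := hp.nodup_iff.2 List.nodup_range
    have hab : a ≠ b := by simpa using hnd
    rw [List.mem_range] at ha hb
    have hcase : (a = 0 ∧ b = 1) ∨ (a = 1 ∧ b = 0) := by omega
    rcases hcase with ⟨rfl, rfl⟩ | ⟨rfl, rfl⟩
    · rfl
    · exfalso
      rw [fl_pair hl] at ht
      exact pair3 h hC ht

theorem isoRange {E : Tm → Tm → Prop} (hE : IsThy E) (hC : Models CC E) {k : ℕ}
    (hW : ∀ j < k, Wit.{u} E j) (hW' : Wit.{u} (opE E) 0) : Iso E (List.range (k + 2)) := by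
  intro t ht
  have hw0 : List.range (k + 2) ≠ [] := by simp
  obtain ⟨l, hl, hp⟩ := perm_of_CC hw0 List.nodup_range (hC _ _ ht)
  have h1 : l.take k = List.range k := by
    have := prefix_eq hE (N := k) (le_refl k) hW hw0 (by simp)
      (List.nodup_range.sublist (List.take_sublist _ _)) ht
    rw [flatN_of_fl hl, List.take_range] at this
    simpa using this
  have h2 : l.reverse.take 1 = [k + 1] := by
    have := prefix_eq (isThy_op hE) (k := 1) (N := 1) (le_refl 1)
      (fun j hj => by
        have : j = 0 := by omega
        subst this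
        exact hW') (w := (List.range (k + 2)).reverse) (by simp) (by simp)
      ((List.nodup_reverse.2 List.nodup_range).sublist (List.take_sublist _ _))
      (opE_wd hE hw0 ht)
    rw [flatN_rev, flatN_of_fl hl] at this
    rw [this, List.range_succ]
    simp
  have hlen : l.length = k + 2 := by simpa using hp.length_eq
  have h3 : l = l.take k ++ l.drop k := (List.take_append_drop k l).symm
  have h4 : (l.drop k).length = 2 := by simp; omega
  rw [hl]
  congr 1
  match hd : l.drop k, h4 with
  | [x, y], _ =>
    rw [hd, h1] at h3
    subst h3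
    have hy : y = k + 1 := by simpa using h2
    subst hy
    have hr : List.range (k + 2) = List.range k ++ [k, k + 1] := by
      rw [List.range_succ, List.range_succ]
      simp
    rw [hr, List.perm_append_left_iff] at hp
    have hx : x ∈ [k, k + 1] := hp.mem_iff.1 (by simp)
    have hnd : [x, k + 1].Nodup := hp.nodup_iff.2 (by simp)
    have hne : x ≠ k + 1 := by simpa using hnd
    have hxk : x = k := by
      simp only [List.mem_cons, List.not_mem_nil, or_false] at hx
      omega
    rw [hr, hxk]

theorem witFromIso {E : Tm → Tm → Prop} {n : ℕ} (h : CDT.{u} E n) (hC : Models CC E) {m : ℕ}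
    (hiso : Iso E (List.range (m + 2))) : Wit.{u} E m := by
  by_contra hW
  have hr : List.range (m + 2) = List.range m ++ [m, m + 1] := by
    rw [List.range_succ, List.range_succ]
    simp
  have hw0 : List.range (m + 2) ≠ [] := by simp
  have hiso' : Iso (fun s t => Sat (FM m) s t ∧ Sat CC s t) (List.range (m + 2)) := by
    rintro t ⟨ht1, ht2⟩
    obtain ⟨l, hl, hp⟩ := perm_of_CC hw0 List.nodup_range ht2
    have h1 := of_sat_FM (N := m + 1) (le_refl _) ht1
    rw [flatN_wd hw0, flatN_of_fl hl, List.take_range, min_eq_left (by omega)] at h1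
    have hlen : l.length = m + 2 := by simpa using hp.length_eq
    have h3 : l = l.take (m + 1) ++ l.drop (m + 1) := (List.take_append_drop _ l).symm
    have h4 : (l.drop (m + 1)).length = 1 := by simp; omega
    rw [hl]
    congr 1
    match hd : l.drop (m + 1), h4 with
    | [x], _ =>
      rw [hd, ← h1] at h3
      subst h3
      rw [List.range_succ (n := m + 1), List.perm_append_left_iff] at hp
      have hx : x ∈ [m + 1] := hp.mem_iff.1 (by simp)
      simp only [List.mem_singleton] at hx
      rw [hx, List.range_succ (n := m + 1)]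
  have key := h.cd (FM m) CC (BW (List.range (m + 2))) m 1 (epi_FM m) epi_CC
    (BW_models h.thy hiso)
    (fun s t h1 h2 => BW_models ((isThy_sat _).inf (isThy_sat _)) hiso' s t ⟨h1, h2⟩)
    (wd (List.range m ++ [m, m + 1])) (wd (List.range m ++ [m + 1, m])) ?_ ?_
  · have := congrArg Subtype.val (key (letB _))
    rw [ev_letB (by simp), ev_letB (by simp), if_pos (by rw [hr])] at this
    rw [if_neg] at this
    · simp at this
    · intro hinf
      have heq := hinf.sublist.eq_of_length (by simp)
      rw [hr] at heq
      simp at heq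
  · intro S _ hS hF φ
    apply WithOne.coe_injective
    rw [ev_of_FM (N := m + 1) (le_refl _) hF, ev_of_FM (N := m + 1) (le_refl _) hF,
      flatN_wd (by simp), flatN_wd (by simp)]
    have t1 : (List.range m ++ [m, m + 1]).take (m + 1) = List.range m ++ [m] := by
      rw [List.take_append, List.take_of_length_le (by simp)]; simp
    have t2 : (List.range m ++ [m + 1, m]).take (m + 1) = List.range m ++ [m + 1] := by
      rw [List.take_append, List.take_of_length_le (by simp)]; simp
    rw [t1, t2]
    by_contra hne
    exact hW ⟨S, _, hS, hF, φ, hne⟩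
  · intro S _ hS hS2
    apply hS2
    intro φ
    apply WithOne.coe_injective
    rw [ev_wd _ (by simp), ev_wd _ (by simp), lv_append, lv_append]
    simp only [lv_cons, lv_nil, mul_one]
    rw [← WithOne.coe_mul, ← WithOne.coe_mul, comm_CC]

theorem models_CC_op' {E : Tm → Tm → Prop} (h : Models CC E) : Models CC (opE E) := by
  intro s t hst
  rw [← sat_CC_rev]
  exact h _ _ hst

theorem chain {E : Tm → Tm → Prop} {n : ℕ} (h : CDT.{u} E n) (hC : Models CC E) :
    ∀ m, Wit.{u} E m ∧ Wit.{u} (opE E) m := by
  have hC' := models_CC_op' hC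
  have W0 : Wit.{u} E 0 := witFromIso h hC (isoTwo h hC)
  have W0' : Wit.{u} (opE E) 0 := witFromIso h.op hC' (isoTwo h.op hC')
  intro m
  induction m using Nat.strong_induction_on with
  | _ m ih =>
    exact ⟨witFromIso h hC (isoRange h.thy hC (fun j hj => (ih j hj).1) W0'),
      witFromIso h.op hC' (isoRange h.op.thy hC' (fun j hj => (ih j hj).2)
        (by rw [opE_opE]; exact W0))⟩

/-- the word `1 2 ... r` -/
def RR (r : ℕ) : List ℕ := (List.range r).map (· + 1)

/-- the word `1 2 ... r 0 1 2 ... r` -/
def ww (r : ℕ) : List ℕ := RR r ++ 0 :: RR r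

theorem zero_notMem_RR (r : ℕ) : 0 ∉ RR r := by
  simp [RR]

theorem nodup_RR (r : ℕ) : (RR r).Nodup := by
  unfold RR
  exact List.nodup_range.map (fun a b h => by simpa using h)

theorem length_RR (r : ℕ) : (RR r).length = r := by simp [RR]

theorem length_ww (r : ℕ) : (ww r).length = 2 * r + 1 := by
  simp [ww, length_RR]; omega

theorem split_unique {a b c d : List ℕ} {x : ℕ} (ha : x ∉ a) (hc : x ∉ c)
    (h : a ++ x :: b = c ++ x :: d) : a = c ∧ b = d := by
  induction a generalizing c with
  | nil =>
    cases c with
    | nil => simpa using h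
    | cons y c =>
      simp only [List.nil_append, List.cons_append, List.cons.injEq] at h
      exact absurd (by rw [h.1]; simp) hc
  | cons z a ih =>
    cases c with
    | nil =>
      simp only [List.nil_append, List.cons_append, List.cons.injEq] at h
      exact absurd (by rw [h.1]; simp) ha
    | cons y c =>
      simp only [List.cons_append, List.cons.injEq] at h
      obtain ⟨h1, h2⟩ := ih (fun h' => ha (List.mem_cons_of_mem _ h'))
        (fun h' => hc (List.mem_cons_of_mem _ h')) h.2
      exact ⟨by rw [h.1, h1], h2⟩

theorem isoW {E : Tm → Tm → Prop} {n : ℕ} (h : CDT.{u} E n) (hC : Models CC E) (r : ℕ) :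
    Iso E (ww r) := by
  intro t ht
  have hW := chain h hC
  have hw0 : ww r ≠ [] := by simp [ww]
  have hCt := hC _ _ ht
  have hwl := length_ww r
  obtain ⟨f, hf⟩ : ∃ f, f = flatN (r + 4) t := ⟨_, rfl⟩
  have h1 : f.take (r + 1) = RR r ++ [0] := by
    have t1 : (ww r).take (r + 1) = RR r ++ [0] := by
      unfold ww
      rw [List.take_append, List.take_of_length_le (by rw [length_RR]; omega), length_RR]
      simp
    rw [hf, ← t1]
    refine prefix_eq h.thy (by omega) (fun j _ => (hW j).1) hw0 (by omega) ?_ ht
    rw [t1]
    refine List.nodup_append.2 ⟨nodup_RR r, by simp, ?_⟩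
    rintro a ha b hb rfl
    simp only [List.mem_singleton] at hb
    subst hb
    exact zero_notMem_RR r ha
  have h2 : f.reverse.take (r + 1) = (RR r).reverse ++ [0] := by
    have t1 : (ww r).reverse.take (r + 1) = (RR r).reverse ++ [0] := by
      unfold ww
      rw [List.reverse_append, List.reverse_cons, List.append_assoc, List.take_append,
        List.take_of_length_le (by rw [List.length_reverse, length_RR]; omega),
        List.length_reverse, length_RR]
      simp
    rw [hf, ← t1, ← flatN_rev]
    refine prefix_eq h.op.thy (by omega) (fun j _ => (hW j).2) (by simpa using hw0)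
      (by rw [List.length_reverse]; omega) ?_ (opE_wd h.thy hw0 ht)
    rw [t1]
    refine List.nodup_append.2 ⟨List.nodup_reverse.2 (nodup_RR r), by simp, ?_⟩
    rintro a ha b hb rfl
    simp only [List.mem_singleton] at hb
    subst hb
    exact zero_notMem_RR r (List.mem_reverse.1 ha)
  have hc0 : (ww r).count 0 = 1 := by
    unfold ww
    rw [List.count_append, List.count_cons_self,
      List.count_eq_zero_of_not_mem (zero_notMem_RR r)]
  have h3 : f.count 0 = 1 := by
    rw [hf]
    apply count_one_of (by omega) hCt
    rw [flatN_wd hw0, hc0]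
  have e1 : f = RR r ++ 0 :: f.drop (r + 1) := by
    conv_lhs => rw [← List.take_append_drop (r + 1) f, h1]
    simp
  have e2 : f = (f.reverse.drop (r + 1)).reverse ++ 0 :: RR r := by
    have : f.reverse = (RR r).reverse ++ [0] ++ f.reverse.drop (r + 1) := by
      conv_lhs => rw [← List.take_append_drop (r + 1) f.reverse, h2]
    have := congrArg List.reverse this
    rw [List.reverse_reverse] at this
    conv_lhs => rw [this]
    simp
  have hγ : 0 ∉ (f.reverse.drop (r + 1)).reverse := by
    intro hmem
    have hpos := List.count_pos_iff.2 hmem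
    have : f.count 0 = ((f.reverse.drop (r + 1)).reverse ++ 0 :: RR r).count 0 := by
      rw [← e2]
    rw [List.count_append, List.count_cons_self, h3] at this
    omega
  have h4 : f = ww r := by
    have h5 := split_unique (zero_notMem_RR r) hγ (e1.symm.trans e2)
    rw [e1, h5.2]
    rfl
  rcases hfl : fl t with _ | l
  · exfalso
    obtain ⟨v, hv⟩ := exists_count_of_fl_none (N := r + 4) (by omega) hfl
    rw [← hf, h4] at hv
    unfold ww at hv
    rw [List.count_append, List.count_cons] at hv
    have := List.nodup_iff_count_le_one.1 (nodup_RR r) v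
    split at hv <;> omega
  · rw [flatN_of_fl hfl] at hf
    rw [← hf, h4]

end Pool.Agent.H66.Epi
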