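import Mathlib

/-!
Unary semigroups, terms, identities, epigroups, epigroup varieties and their lattice.
-/

namespace Pool.Agent.H66.Epi

universe u

/-- A unary semigroup: a semigroup with one unary operation `bar`. -/
class USg (S : Type u) extends Semigroup S where
  /-- the unary operation -/
  bar : S → S

export USg (bar)

/-- `pw x n` is the power `x ^ (n + 1)`. -/
def pw {S : Type u} [Mul S] (x : S) : ℕ → S
  | 0 => x
  | n + 1 => pw x n * x

/-- The set `G` is a subgroup of the semigroup `S`, with identity element `e`. -/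
def IsSubgp {S : Type u} [Mul S] (G : Set S) (e : S) : Prop :=
  e ∈ G ∧ (∀ a ∈ G, ∀ b ∈ G, a * b ∈ G) ∧
    ∀ a ∈ G, e * a = a ∧ a * e = a ∧ ∃ b ∈ G, a * b = e ∧ b * a = e

/-- The set `G` is a maximal subgroup of the semigroup `S`, with identity element `e`. -/
def IsMaxSubgp {S : Type u} [Mul S] (G : Set S) (e : S) : Prop :=
  IsSubgp G e ∧ ∀ (K : Set S) (f : S), IsSubgp K f → G ⊆ K → K ⊆ G

/-- The unary semigroup `S` is an epigroup and its unary operation is pseudoinversion:
every `x` has a power in a maximal subgroup `H`, with identity `e` say, and `bar x` is the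
inverse of `x * e` in `H`. -/
def IsEpigroup (S : Type u) [USg S] : Prop :=
  ∀ x : S, ∃ (H : Set S) (e : S), IsMaxSubgp H e ∧ (∃ n : ℕ, pw x n ∈ H) ∧
    x * e ∈ H ∧ bar x ∈ H ∧ (x * e) * bar x = e ∧ bar x * (x * e) = e

/-- Terms in the signature of unary semigroups, over countably many variables. -/
inductive Tm : Type
  | v (i : ℕ) : Tm
  | m (s t : Tm) : Tm
  | b (t : Tm) : Tm

/-- The value of a term in a unary semigroup. -/
def ev {S : Type u} [USg S] (φ : ℕ → S) : Tm → S
  | .v i => φ i
  | .m s t => ev φ s * ev φ t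
  | .b t => bar (ev φ t)

/-- The identity `s ≈ t` holds in `S`. -/
def Sat (S : Type u) [USg S] (s t : Tm) : Prop := ∀ φ : ℕ → S, ev φ s = ev φ t

/-- Epigroup varieties: classes of unary semigroups defined by identities all of whose
members are epigroups with pseudoinversion as the unary operation. -/
@[ext]
structure EVar : Type (u + 1) where
  /-- the members of the variety -/
  mem : (S : Type u) → [USg S] → Prop
  /-- the variety is defined by a set of identities -/
  eqn : ∃ E : Set (Tm × Tm), ∀ (S : Type u) [USg S], mem S ↔ ∀ p ∈ E, Sat S p.1 p.2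
  /-- the members are epigroups -/
  epi : ∀ (S : Type u) [USg S], mem S → IsEpigroup S

/-- An element `x` of a lattice is codistributive. -/
def Codistributive {L : Type*} [Lattice L] (x : L) : Prop :=
  ∀ y z : L, x ⊓ (y ⊔ z) = (x ⊓ y) ⊔ (x ⊓ z)

/-- The square `S² = {ab : a, b ∈ S}` of a semigroup. -/
def Sq (S : Type u) [Mul S] : Set S := {x | ∃ a b : S, x = a * b}

/-- The square `S²` is completely regular: each of its elements lies in a subgroup of `S²`,
that is, in a subgroup of `S` all of whose elements are in `S²`. -/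
def SquareCompletelyRegular (S : Type u) [Mul S] : Prop :=
  ∀ x ∈ Sq S, ∃ (G : Set S) (e : S), IsSubgp G e ∧ G ⊆ Sq S ∧ x ∈ G

section epi

variable {S : Type u} [USg S]

theorem pw_comm (x : S) (n : ℕ) : x * pw x n = pw x n * x := by
  induction n with
  | zero => rfl
  | succ n ih => simp only [pw]; rw [← mul_assoc, ih]

/-- commuting elements: powers commute -/
theorem pw_comm' {x y : S} (h : x * y = y * x) (n : ℕ) : pw x n * y = y * pw x n := by
  induction n with
  | zero => exact h
  | succ n ih => simp only [pw]; rw [mul_assoc, h, ← mul_assoc, ih, mul_assoc]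

theorem pw_idem {e : S} (he : e * e = e) (n : ℕ) : pw e n = e := by
  induction n with
  | zero => rfl
  | succ n ih => simp only [pw, ih, he]

theorem pw_mul {x y : S} (h : x * y = y * x) (n : ℕ) : pw x n * pw y n = pw (x * y) n := by
  induction n with
  | zero => rfl
  | succ n ih =>
    simp only [pw]
    rw [← ih]
    have h2 : x * pw y n = pw y n * x := (pw_comm' h.symm n).symm
    calc pw x n * x * (pw y n * y) = pw x n * (x * pw y n) * y := by simp only [mul_assoc]
      _ = pw x n * (pw y n * x) * y := by rw [h2]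
      _ = _ := by simp only [mul_assoc]

/-- The three identities which characterize epigroups of index `≤ n + 1`. -/
def EpiEq (S : Type u) [USg S] (n : ℕ) : Prop :=
  ∀ x : S, x * bar x = bar x * x ∧ bar x * x * bar x = bar x ∧ pw x n * x * bar x = pw x n

/-- The maximal subgroup with identity `e`. -/
def Hcl (e : S) : Set S := {a | e * a = a ∧ a * e = a ∧ ∃ b, e * b = b ∧ b * e = b ∧
  a * b = e ∧ b * a = e}

theorem Hcl_sub {e : S} (he : e * e = e) : IsSubgp (Hcl e) e := by
  refine ⟨⟨he, he, e, he, he, he, he⟩, ?_, ?_⟩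
  · rintro a ⟨ha, ha', a', h1, h2, h3, h4⟩ b ⟨hb, hb', b', k1, k2, k3, k4⟩
    refine ⟨by rw [← mul_assoc, ha], by rw [mul_assoc, hb'], b' * a', by rw [← mul_assoc, k1],
      by rw [mul_assoc, h2], ?_, ?_⟩
    · calc a * b * (b' * a') = a * (b * b') * a' := by simp only [mul_assoc]
        _ = e := by rw [k3, ha', h3]
    · calc b' * a' * (a * b) = b' * (a' * a) * b := by simp only [mul_assoc]
        _ = e := by rw [h4, k2, k4]
  · rintro a ⟨ha, ha', a', h1, h2, h3, h4⟩
    exact ⟨ha, ha', a', ⟨h1, h2, a, ha, ha', h4, h3⟩, h3, h4⟩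

theorem Hcl_max {e : S} (he : e * e = e) : IsMaxSubgp (Hcl e) e := by
  refine ⟨Hcl_sub he, ?_⟩
  intro K f hK hsub x hx
  have heK : e ∈ K := hsub (Hcl_sub he).1
  obtain ⟨hfe, hef, g, hg, hg1, hg2⟩ := hK.2.2 e heK
  have : e = f := by
    calc e = f * e := hfe.symm
      _ = g * e * e := by rw [hg2]
      _ = g * e := by rw [mul_assoc, he]
      _ = f := hg2
  subst this
  obtain ⟨h1, h2, b, hb, h3, h4⟩ := hK.2.2 x hx
  exact ⟨h1, h2, b, (hK.2.2 b hb).1, (hK.2.2 b hb).2.1, h3, h4⟩

theorem isEpigroup_of_epiEq {n : ℕ} (h : EpiEq S n) : IsEpigroup S := by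
  intro x
  obtain ⟨h1, h2, h3⟩ := h x
  have hee : (x * bar x) * (x * bar x) = x * bar x := by
    calc (x * bar x) * (x * bar x) = x * (bar x * x * bar x) := by simp only [mul_assoc]
      _ = _ := by rw [h2]
  refine ⟨Hcl (x * bar x), x * bar x, Hcl_max hee, ⟨n, ?_⟩, ?_, ?_, ?_, ?_⟩
  · have hc : pw x n * (x * bar x) = pw x n := by rw [← mul_assoc, h3]
    have hc' : (x * bar x) * pw x n = pw x n := by
      have : x * (x * bar x) = (x * bar x) * x := by
        rw [mul_assoc, ← h1]
      rw [← pw_comm' this n, hc]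
    have h4 : pw x n * pw (bar x) n = x * bar x := by
      rw [pw_mul h1, pw_idem hee]
    have h4' : pw (bar x) n * pw x n = x * bar x := by
      rw [pw_mul h1.symm, ← h1, pw_idem hee]
    have hb : bar x * (x * bar x) = bar x := by rw [← mul_assoc, h2]
    have hb' : (x * bar x) * bar x = bar x := by rw [h1, h2]
    have hbb : bar x * (x * bar x) = (x * bar x) * bar x := by rw [hb, hb']
    have hd : ∀ k, pw (bar x) k * (x * bar x) = pw (bar x) k := by
      intro k
      cases k with
      | zero => exact hb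
      | succ k => simp only [pw]; rw [mul_assoc, hb]
    have hd' : ∀ k, (x * bar x) * pw (bar x) k = pw (bar x) k := by
      intro k
      rw [← pw_comm' hbb k, hd]
    exact ⟨hc', hc, pw (bar x) n, hd' n, hd n, h4, h4'⟩
  · have hb : bar x * (x * bar x) = bar x := by rw [← mul_assoc, h2]
    have hb' : (x * bar x) * bar x = bar x := by rw [h1, h2]
    refine ⟨?_, ?_, bar x, hb', hb, ?_, ?_⟩
    · calc x * bar x * (x * (x * bar x)) = x * (bar x * x) * (x * bar x) := by
            simp only [mul_assoc]
        _ = x * (x * bar x) * (x * bar x) := by rw [h1]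
        _ = x * ((x * bar x) * (x * bar x)) := by simp only [mul_assoc]
        _ = _ := by rw [hee]
    · rw [mul_assoc, hee]
    · rw [mul_assoc, hb']
    · calc bar x * (x * (x * bar x)) = (bar x * x) * (x * bar x) := by simp only [mul_assoc]
        _ = _ := by rw [← h1, hee]
  · have hb : bar x * (x * bar x) = bar x := by rw [← mul_assoc, h2]
    have hb' : (x * bar x) * bar x = bar x := by rw [h1, h2]
    refine ⟨hb', hb, x * (x * bar x), ?_, ?_, ?_, ?_⟩
    · calc x * bar x * (x * (x * bar x)) = x * (bar x * x) * (x * bar x) := by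
            simp only [mul_assoc]
        _ = x * (x * bar x) * (x * bar x) := by rw [h1]
        _ = x * ((x * bar x) * (x * bar x)) := by simp only [mul_assoc]
        _ = _ := by rw [hee]
    · rw [mul_assoc, hee]
    · calc bar x * (x * (x * bar x)) = (bar x * x) * (x * bar x) := by simp only [mul_assoc]
        _ = _ := by rw [← h1, hee]
    · rw [mul_assoc, hb']
  · have hb' : (x * bar x) * bar x = bar x := by rw [h1, h2]
    rw [mul_assoc, hb']
  · calc bar x * (x * (x * bar x)) = (bar x * x) * (x * bar x) := by simp only [mul_assoc]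
      _ = _ := by rw [← h1, hee]

theorem epi_local (h : IsEpigroup S) (x : S) :
    x * bar x = bar x * x ∧ bar x * x * bar x = bar x ∧ ∃ n, pw x n * x * bar x = pw x n := by
  obtain ⟨H, e, ⟨⟨heH, hmul, hH⟩, -⟩, ⟨n, hn⟩, hxe, hy, h1, h2⟩ := h x
  have hee : e * e = e := (hH e heH).1
  obtain ⟨g1, g2, g, hg, hg1, hg2⟩ := hH _ hn
  obtain ⟨y1, y2, -⟩ := hH _ hy
  -- `e * x * e = e * x`
  have hgx : pw x n * x = x * pw x n := (pw_comm x n).symm
  have e1 : e * x = g * x * pw x n := by
    rw [← hg2, mul_assoc, hgx, mul_assoc]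
  have e2 : e * x * e = e * x := by
    rw [e1, mul_assoc, g2]
  have e3 : x * e = pw x n * x * g := by
    rw [← hg1, hgx, mul_assoc]
  have e4 : e * (x * e) = x * e := (hH _ hxe).1
  have e5 : e * x = x * e := by
    rw [← e2, mul_assoc, e4]
  have hxy : x * bar x = e := by
    rw [← h1, mul_assoc, y1]
  have hyx : bar x * x = e := by
    calc bar x * x = bar x * e * x := by rw [y2]
      _ = bar x * (x * e) := by rw [mul_assoc, e5]
      _ = e := h2
  refine ⟨by rw [hxy, hyx], by rw [hyx, y1], n, ?_⟩
  rw [mul_assoc, hxy, g2]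

end epi

/-- Products of unary semigroups. -/
instance piUSg {ι : Type*} {S : ι → Type*} [∀ i, USg (S i)] : USg (∀ i, S i) where
  bar x := fun i => bar (x i)

theorem ev_pi_apply {ι : Type*} {S : ι → Type*} [∀ i, USg (S i)] (φ : ℕ → ∀ i, S i) (t : Tm)
    (i : ι) : ev φ t i = ev (fun k => φ k i) t := by
  induction t with
  | v k => rfl
  | m s t hs ht => simp only [ev, Pi.mul_apply, hs, ht]
  | b t ht => simp only [ev]; rw [← ht]; rfl

theorem sat_pi {ι : Type*} {S : ι → Type*} [∀ i, USg (S i)] {s t : Tm}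
    (h : ∀ i, Sat (S i) s t) : Sat (∀ i, S i) s t := by
  intro φ
  funext i
  rw [ev_pi_apply, ev_pi_apply]
  exact h i _

theorem pw_pi_apply {ι : Type*} {S : ι → Type*} [∀ i, USg (S i)] (x : ∀ i, S i) (n : ℕ)
    (i : ι) : pw x n i = pw (x i) n := by
  induction n with
  | zero => rfl
  | succ n ih => simp only [pw, Pi.mul_apply, ih]

/-- The members of an epigroup variety have bounded index. -/
theorem EVar.exists_index (V : EVar.{u}) : ∃ n, ∀ (S : Type u) [USg S], V.mem S → EpiEq S n := by
  by_contra hcon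
  push Not at hcon
  choose S iS hS hn using hcon
  obtain ⟨E, hE⟩ := V.eqn
  have hP : V.mem (∀ n, S n) := by
    rw [hE]
    intro p hp
    exact sat_pi fun i => (hE (S i)).1 (hS i) p hp
  have key : ∀ n, ∃ x : S n, pw x n * x * bar x ≠ pw x n := by
    intro n
    by_contra hc
    push Not at hc
    exact hn n fun x => ⟨(epi_local (V.epi _ (hS n)) x).1, (epi_local (V.epi _ (hS n)) x).2.1,
      hc x⟩
  choose x hx using key
  obtain ⟨-, -, n, h⟩ := epi_local (V.epi _ hP) x
  apply hx n
  have := congrFun h n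
  simp only [Pi.mul_apply, pw_pi_apply] at this
  exact this

/-- The term `x₀ ^ (n + 1)`. -/
def tpw (n : ℕ) : Tm := match n with
  | 0 => .v 0
  | n + 1 => .m (tpw n) (.v 0)

theorem ev_tpw {S : Type u} [USg S] (φ : ℕ → S) (n : ℕ) : ev φ (tpw n) = pw (φ 0) n := by
  induction n with
  | zero => rfl
  | succ n ih => simp only [tpw, ev, pw, ih]

theorem epiEq_iff {S : Type u} [USg S] (n : ℕ) : EpiEq S n ↔
    Sat S (.m (.v 0) (.b (.v 0))) (.m (.b (.v 0)) (.v 0)) ∧
    Sat S (.m (.m (.b (.v 0)) (.v 0)) (.b (.v 0))) (.b (.v 0)) ∧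
    Sat S (.m (.m (tpw n) (.v 0)) (.b (.v 0))) (tpw n) := by
  constructor
  · intro h
    refine ⟨fun φ => (h (φ 0)).1, fun φ => (h (φ 0)).2.1, fun φ => ?_⟩
    simp only [ev, ev_tpw]
    exact (h (φ 0)).2.2
  · rintro ⟨h1, h2, h3⟩ x
    refine ⟨h1 (fun _ => x), h2 (fun _ => x), ?_⟩
    have := h3 (fun _ => x)
    simp only [ev, ev_tpw] at this
    exact this

theorem EpiEq.mono {S : Type u} [USg S] {n k : ℕ} (h : EpiEq S n) (hk : n ≤ k) : EpiEq S k := by
  induction hk with
  | refl => exact h
  | @step k hk ih =>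
    intro x
    obtain ⟨h1, h2, h3⟩ := ih x
    refine ⟨h1, h2, ?_⟩
    simp only [pw]
    have : x * (x * bar x) = (x * bar x) * x := by
      rw [mul_assoc, ← h1]
    calc pw x k * x * x * bar x = pw x k * (x * (x * bar x)) := by simp only [mul_assoc]
      _ = pw x k * ((x * bar x) * x) := by rw [this]
      _ = (pw x k * x * bar x) * x := by simp only [mul_assoc]
      _ = _ := by rw [h3]

instance : PartialOrder EVar.{u} where
  le V W := ∀ (S : Type u) [USg S], V.mem S → W.mem S
  le_refl V S _ h := h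
  le_trans U V W h1 h2 S _ h := h2 S (h1 S h)
  le_antisymm V W h1 h2 := by
    apply EVar.ext
    funext S i
    exact propext ⟨h1 S, h2 S⟩

/-- The lattice of epigroup varieties, ordered by inclusion. -/
instance : Lattice EVar.{u} where
  inf V W :=
    { mem := fun S _ => V.mem S ∧ W.mem S
      eqn := by
        obtain ⟨E, hE⟩ := V.eqn
        obtain ⟨F, hF⟩ := W.eqn
        refine ⟨E ∪ F, fun S _ => ?_⟩
        rw [hE, hF]
        constructor
        · rintro ⟨h1, h2⟩ p (hp | hp)
          · exact h1 p hp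
          · exact h2 p hp
        · intro h
          exact ⟨fun p hp => h p (Or.inl hp), fun p hp => h p (Or.inr hp)⟩
      epi := fun S _ h => V.epi S h.1 }
  sup V W :=
    { mem := fun S _ => ∀ s t : Tm, (∀ (T : Type u) [USg T], V.mem T → Sat T s t) →
        (∀ (T : Type u) [USg T], W.mem T → Sat T s t) → Sat S s t
      eqn := by
        refine ⟨{p | (∀ (T : Type u) [USg T], V.mem T → Sat T p.1 p.2) ∧
          (∀ (T : Type u) [USg T], W.mem T → Sat T p.1 p.2)}, fun S _ => ?_⟩
        constructor
        · intro h p hp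
          exact h p.1 p.2 hp.1 hp.2
        · intro h s t h1 h2
          exact h (s, t) ⟨h1, h2⟩
      epi := by
        intro S _ h
        obtain ⟨n, hn⟩ := V.exists_index
        obtain ⟨k, hk⟩ := W.exists_index
        apply isEpigroup_of_epiEq (n := max n k)
        rw [epiEq_iff]
        refine ⟨h _ _ (fun T _ hT => ?_) (fun T _ hT => ?_), h _ _ (fun T _ hT => ?_)
          (fun T _ hT => ?_), h _ _ (fun T _ hT => ?_) (fun T _ hT => ?_)⟩
        · exact ((epiEq_iff n).1 (hn T hT)).1
        · exact ((epiEq_iff k).1 (hk T hT)).1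
        · exact ((epiEq_iff n).1 (hn T hT)).2.1
        · exact ((epiEq_iff k).1 (hk T hT)).2.1
        · exact ((epiEq_iff _).1 ((hn T hT).mono (le_max_left n k))).2.2
        · exact ((epiEq_iff _).1 ((hk T hT).mono (le_max_right n k))).2.2 }
  le_sup_left V W S _ h s t h1 h2 := h1 S h
  le_sup_right V W S _ h s t h1 h2 := h2 S h
  sup_le U V W h1 h2 S _ h := by
    obtain ⟨E, hE⟩ := W.eqn
    rw [hE]
    intro p hp
    exact h p.1 p.2 (fun T _ hT => (hE T).1 (h1 T hT) p hp)
      (fun T _ hT => (hE T).1 (h2 T hT) p hp)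
  inf_le_left V W S _ h := h.1
  inf_le_right V W S _ h := h.2
  le_inf U V W h1 h2 S _ h := ⟨h1 S h, h2 S h⟩

end Pool.Agent.H66.Epi
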