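import Pool.Agent.H66.Epi.Words

set_option linter.unusedVariables false
set_option linter.unusedSectionVars false
set_option linter.constructorNameAsVariable false

namespace Pool.Agent.H66.Epi

universe u

theorem take_left (k : ℕ) (A B : List ℕ) : (A.take k ++ B).take k = (A ++ B).take k := by
  simp only [List.take_append, List.take_take, min_self, List.length_take]
  congr 2
  omega

theorem take_right (k : ℕ) (A B : List ℕ) : (A ++ B.take k).take k = (A ++ B).take k := by
  simp only [List.take_append, List.take_take]
  congr 2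
  omega

theorem rep_take (k j : ℕ) (A : List ℕ) :
    ((List.replicate j (A.take k)).flatten).take k = ((List.replicate j A).flatten).take k := by
  induction j with
  | zero => rfl
  | succ j ih =>
    simp only [List.replicate_succ, List.flatten_cons]
    rw [take_left, ← take_right, ih, take_right]

theorem rep_stable {k j : ℕ} {A : List ℕ} (hA : A ≠ []) (hj : k ≤ j) :
    ((List.replicate j A).flatten).take k = ((List.replicate k A).flatten).take k := by
  obtain ⟨i, rfl⟩ := Nat.exists_eq_add_of_le hj
  rw [List.replicate_add, List.flatten_append, List.take_append_of_le_length]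
  have : 1 ≤ A.length := List.length_pos_of_ne_nil hA
  simp only [List.length_flatten, List.map_replicate, List.sum_replicate, smul_eq_mul]
  nlinarith

theorem flatMap_rep (N : ℕ) (l : List ℕ) (f : ℕ → List ℕ) :
    (List.replicate N l).flatten.flatMap f = (List.replicate N (l.flatMap f)).flatten := by
  induction N with
  | zero => rfl
  | succ N ih => simp only [List.replicate_succ, List.flatten_cons, List.flatMap_append, ih]

theorem take_flatMap (f : ℕ → List ℕ) (hf : ∀ i, f i ≠ []) (l : List ℕ) (k : ℕ) :
    (l.flatMap f).take k = ((l.take k).flatMap f).take k := by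
  induction l generalizing k with
  | nil => simp
  | cons a l ih =>
    cases k with
    | zero => simp
    | succ k =>
      obtain ⟨x, xs, hx⟩ := List.exists_cons_of_ne_nil (hf a)
      simp only [List.flatMap_cons, List.take_succ_cons, hx, List.cons_append]
      congr 1
      rw [← take_right, ih, take_right]

/-- words of length at most `m + 1` with truncated concatenation -/
def FM (m : ℕ) : Type := {l : List ℕ // l ≠ [] ∧ l.length ≤ m + 1}

instance (m : ℕ) : USg (FM m) where
  mul a b := ⟨(a.1 ++ b.1).take (m + 1), by
    obtain ⟨x, xs, hx⟩ := List.exists_cons_of_ne_nil a.2.1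
    rw [hx]; simp, by simp⟩
  mul_assoc a b c := by
    apply Subtype.ext
    change ((a.1 ++ b.1).take (m + 1) ++ c.1).take (m + 1) =
      (a.1 ++ (b.1 ++ c.1).take (m + 1)).take (m + 1)
    rw [take_left, take_right, List.append_assoc]
  bar a := ⟨((List.replicate (m + 1) a.1).flatten).take (m + 1), by
    obtain ⟨x, xs, hx⟩ := List.exists_cons_of_ne_nil a.2.1
    rw [hx]; simp [List.replicate_succ], by simp⟩

theorem FM_mul_val {m : ℕ} (a b : FM m) : (a * b).1 = (a.1 ++ b.1).take (m + 1) := rfl

theorem FM_bar_val {m : ℕ} (a : FM m) :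
    (bar a).1 = ((List.replicate (m + 1) a.1).flatten).take (m + 1) := rfl

theorem ev_FM {m N : ℕ} (hN : m + 1 ≤ N) (φ : ℕ → FM m) (t : Tm) :
    (ev φ t).1 = ((flatN N t).flatMap (fun i => (φ i).1)).take (m + 1) := by
  induction t with
  | v i => simp [ev, flatN, List.take_of_length_le (φ i).2.2]
  | m s t hs ht =>
    simp only [ev, FM_mul_val, flatN, hs, ht, List.flatMap_append]
    rw [take_left, take_right]
  | b t ht =>
    simp only [ev, FM_bar_val, flatN, ht, flatMap_rep]
    rw [rep_take, rep_stable (j := N) _ hN]
    have h1 := flatN_ne_nil (N := N) (by omega) t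
    obtain ⟨x, xs, hx⟩ := List.exists_cons_of_ne_nil h1
    rw [hx]
    simp [(φ x).2.1]

theorem sat_FM {m N : ℕ} (hN : m + 1 ≤ N) {s t : Tm}
    (h : (flatN N s).take (m + 1) = (flatN N t).take (m + 1)) : Sat (FM m) s t := by
  intro φ
  apply Subtype.ext
  rw [ev_FM hN, ev_FM hN, take_flatMap _ (fun i => (φ i).2.1), h,
    ← take_flatMap _ (fun i => (φ i).2.1)]

/-- the letters as elements of `FM m` -/
def letF (m i : ℕ) : FM m := ⟨[i], by simp, by simp⟩

theorem of_sat_FM {m N : ℕ} (hN : m + 1 ≤ N) {s t : Tm} (h : Sat (FM m) s t) :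
    (flatN N s).take (m + 1) = (flatN N t).take (m + 1) := by
  have e1 := ev_FM hN (letF m) s
  have e2 := ev_FM hN (letF m) t
  rw [h] at e1
  have := e1.symm.trans e2
  simpa [letF] using this

theorem flatN_tpw (N k : ℕ) : flatN N (tpw k) = List.replicate (k + 1) 0 := by
  induction k with
  | zero => rfl
  | succ k ih => simp only [tpw, flatN, ih]; rw [List.replicate_succ' (n := k + 1)]

theorem epi_FM (m : ℕ) : EpiEq (FM m) m := by
  rw [epiEq_iff]
  refine ⟨sat_FM (le_refl _) ?_, sat_FM (le_refl _) ?_, sat_FM (le_refl _) ?_⟩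
  · simp only [flatN, List.flatten_replicate_singleton]
    rw [← List.replicate_succ', List.replicate_succ]
    rfl
  · simp only [flatN, List.flatten_replicate_singleton]
    rw [← List.replicate_one, ← List.replicate_add, ← List.replicate_add]
    simp only [List.take_replicate]
    congr 1
    omega
  · simp only [flatN, List.flatten_replicate_singleton, flatN_tpw]
    rw [← List.replicate_one, ← List.replicate_add, ← List.replicate_add]
    simp only [List.take_replicate]
    congr 1
    omega

theorem ev_of_FM {m N : ℕ} (hN : m + 1 ≤ N) {S : Type u} [USg S] (hS : Models S (Sat (FM m)))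
    (φ : ℕ → S) (s : Tm) :
    ((ev φ s : S) : WithOne S) = lv φ ((flatN N s).take (m + 1)) := by
  have h0 := flatN_ne_nil (N := N) (by omega) s
  have h1 : (flatN N s).take (m + 1) ≠ [] := by
    obtain ⟨x, xs, hx⟩ := List.exists_cons_of_ne_nil h0
    rw [hx]; simp
  have h2 : Sat (FM m) s (wd ((flatN N s).take (m + 1))) := by
    apply sat_FM hN
    rw [flatN_wd h1]
    simp
  rw [hS _ _ h2 φ, ev_wd φ h1]

/-- a witness that the letter in position `m` (counted from zero) matters -/
def Wit (E : Tm → Tm → Prop) (m : ℕ) : Prop :=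
  ∃ (S : Type u) (_ : USg S), Models S E ∧ Models S (Sat (FM m)) ∧ ∃ ψ : ℕ → S,
    lv ψ (List.range m ++ [m]) ≠ lv ψ (List.range m ++ [m + 1])

theorem Wit.differ {E : Tm → Tm → Prop} {m : ℕ} (hW : Wit.{u} E m) {N : ℕ} (hN : m + 1 ≤ N)
    {s t : Tm} (hst : E s t) {ρ α β : List ℕ} {x y : ℕ} (hs : flatN N s = ρ ++ x :: α)
    (ht : flatN N t = ρ ++ y :: β) (hρ : ρ.length = m) (hnd : ρ.Nodup) (hx : x ∉ ρ)
    (hxy : x ≠ y) : False := by
  obtain ⟨S, _, hE, hF, ψ, hψ⟩ := hW
  apply hψ
  let σ : ℕ → ℕ → S := fun c k => if k ∈ ρ then ψ (ρ.idxOf k) else if k = x then ψ c else ψ (m + 1)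
  have h1 : ∀ c, lv (σ c) ρ = lv ψ (List.range m) := by
    intro c
    unfold lv
    congr 1
    apply List.ext_getElem
    · simp [hρ]
    · intro i h1 h2
      simp only [List.getElem_map, List.getElem_range]
      have : ρ[i]'(by simpa using h1) ∈ ρ := List.getElem_mem _
      simp only [σ, if_pos this]
      rw [hnd.idxOf_getElem]
  have h2 : ∀ c, lv (σ c) (ρ ++ [x]) = lv ψ (List.range m ++ [c]) := by
    intro c
    rw [lv_append, lv_append, h1]
    simp [σ, hx]
  have h3 : ∀ c d, lv (σ c) (ρ ++ [y]) = lv (σ d) (ρ ++ [y]) := by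
    intro c d
    rw [lv_append, lv_append, h1, h1]
    simp [σ, hxy.symm]
  have h4 : ∀ c, lv (σ c) (ρ ++ [x]) = lv (σ c) (ρ ++ [y]) := by
    intro c
    have e1 := ev_of_FM hN hF (σ c) s
    have e2 := ev_of_FM hN hF (σ c) t
    rw [hE _ _ hst (σ c), e2, hs, ht] at e1
    have t1 : (ρ ++ x :: α).take (m + 1) = ρ ++ [x] := by
      rw [List.take_append, List.take_of_length_le (by omega), hρ]; simp
    have t2 : (ρ ++ y :: β).take (m + 1) = ρ ++ [y] := by
      rw [List.take_append, List.take_of_length_le (by omega), hρ]; simp
    rw [t1, t2] at e1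
    exact e1.symm
  rw [← h2 m, ← h2 (m + 1), h4, h4, h3 m (m + 1)]

theorem prefix_eq {E : Tm → Tm → Prop} (hE : IsThy E) {k N : ℕ} (hN : k ≤ N)
    (hW : ∀ j < k, Wit.{u} E j) {w : List ℕ} (hw0 : w ≠ []) (hw : k ≤ w.length)
    (hnd : (w.take k).Nodup) {t : Tm} (h : E (wd w) t) : (flatN N t).take k = w.take k := by
  have key : ∀ j ≤ k, (flatN N t).take j = w.take j := by
    intro j hj
    induction j with
    | zero => simp
    | succ j ih =>
      have ih := ih (by omega)
      have hjw : j < w.length := by omega
      have hlen : (w.take j).length = j := by simp; omega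
      have hsplit : w = w.take j ++ w[j] :: w.drop (j + 1) := by
        rw [← List.drop_eq_getElem_cons hjw, List.take_append_drop]
      have hnd1 : (w.take (j + 1)).Nodup := by
        have : (w.take k).take (j + 1) = w.take (j + 1) := by
          rw [List.take_take]; congr 1; omega
        rw [← this]
        exact hnd.sublist (List.take_sublist _ _)
      rw [List.take_succ_eq_append_getElem hjw] at hnd1
      have hnd2 := List.nodup_append.1 hnd1
      have hx : w[j] ∉ w.take j := by
        intro hmem
        exact hnd2.2.2 _ hmem _ (by simp) rfl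
      by_cases hlt : j < (flatN N t).length
      · have hsplit' : flatN N t = w.take j ++ (flatN N t)[j] :: (flatN N t).drop (j + 1) := by
          rw [← ih, ← List.drop_eq_getElem_cons hlt, List.take_append_drop]
        by_cases hxy : w[j] = (flatN N t)[j]
        · rw [List.take_succ_eq_append_getElem hjw, List.take_succ_eq_append_getElem hlt, ih, hxy]
        · exfalso
          exact (hW j (by omega)).differ (N := N) (by omega) h
            (by rw [flatN_wd hw0]; exact hsplit) hsplit' hlen hnd2.1 hx hxy
      · exfalso
        have hf : flatN N t = w.take j := by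
          rw [← ih, List.take_of_length_le (by omega)]
        have h' : E (.m (wd w) (.v (w[j] + 1))) (.m t (.v (w[j] + 1))) :=
          hE.mul _ _ _ _ h (hE.refl _)
        refine (hW j (by omega)).differ (N := N) (by omega) h'
          (ρ := w.take j) (x := w[j]) (α := w.drop (j + 1) ++ [w[j] + 1]) (y := w[j] + 1)
          (β := []) ?_ ?_ hlen hnd2.1 hx (by omega)
        · simp only [flatN, flatN_wd hw0]
          exact (congrArg (· ++ [w[j] + 1]) hsplit).trans (by
            simp only [List.append_assoc, List.cons_append])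
        · simp only [flatN, hf]
  exact key k (le_refl _)

end Pool.Agent.H66.Epi
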