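import Pool.Agent.H66.Epi.Chain

set_option linter.unusedVariables false
set_option linter.unusedSectionVars false
set_option linter.constructorNameAsVariable false

namespace Pool.Agent.H66.Epi

universe u

/-- cut down a word to the nilpotent algebra `TT w u` -/
def cut (w u c : List ℕ) : List ℕ :=
  if c.length < w.length then c else if c = w ∨ c = u then w else []

/-- multiplication of `TT w u` -/
def tmul (w u a b : List ℕ) : List ℕ :=
  if a = [] ∨ b = [] then [] else cut w u (a ++ b)

theorem cut_long {w u c : List ℕ} (hL : u.length = w.length) (h : w.length < c.length) :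
    cut w u c = [] := by
  unfold cut
  rw [if_neg (by omega), if_neg]
  rintro (rfl | rfl) <;> omega

theorem cut_short {w u c : List ℕ} (h : c.length < w.length) : cut w u c = c := if_pos h

theorem cut_cases {w u : List ℕ} (hL : u.length = w.length) (c : List ℕ) :
    (c.length < w.length ∧ cut w u c = c) ∨
    (w.length ≤ c.length ∧ cut w u c = []) ∨ (c.length = w.length ∧ (c = w ∨ c = u) ∧
      cut w u c = w) := by
  by_cases h : c.length < w.length
  · exact Or.inl ⟨h, if_pos h⟩
  · right
    by_cases h2 : c = w ∨ c = u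
    · right
      refine ⟨by rcases h2 with rfl | rfl <;> omega, h2, ?_⟩
      unfold cut
      rw [if_neg h, if_pos h2]
    · left
      refine ⟨by omega, ?_⟩
      unfold cut
      rw [if_neg h, if_neg h2]

theorem cut_full {w u c : List ℕ} (h : c.length = w.length) :
    cut w u c = if c = w ∨ c = u then w else [] := by
  unfold cut
  rw [if_neg (by omega)]

theorem tmul_cut_right {w u a c : List ℕ} (hL : u.length = w.length) (ha : a ≠ [])
    (hc : c ≠ []) : tmul w u a (cut w u c) = cut w u (a ++ c) := by
  have hal := List.length_pos_of_ne_nil ha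
  rcases cut_cases hL c with ⟨h1, h2⟩ | ⟨h1, h2⟩ | ⟨h1, h2, h3⟩
  · rw [h2]
    unfold tmul
    rw [if_neg]
    rintro (h | h)
    · exact ha h
    · exact hc h
  · rw [h2]
    unfold tmul
    rw [if_pos (Or.inr rfl), cut_long hL]
    simp; omega
  · rw [h3]
    have e1 : cut w u (a ++ c) = [] := cut_long hL (by simp; omega)
    have e2 : cut w u (a ++ w) = [] := cut_long hL (by simp; omega)
    rw [e1]
    unfold tmul
    split
    · rfl
    · exact e2

theorem tmul_cut_left {w u a c : List ℕ} (hL : u.length = w.length) (ha : a ≠ [])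
    (hc : c ≠ []) : tmul w u (cut w u c) a = cut w u (c ++ a) := by
  have hal := List.length_pos_of_ne_nil ha
  rcases cut_cases hL c with ⟨h1, h2⟩ | ⟨h1, h2⟩ | ⟨h1, h2, h3⟩
  · rw [h2]
    unfold tmul
    rw [if_neg]
    rintro (h | h)
    · exact hc h
    · exact ha h
  · rw [h2]
    unfold tmul
    rw [if_pos (Or.inl rfl), cut_long hL]
    simp; omega
  · rw [h3]
    have e1 : cut w u (c ++ a) = [] := cut_long hL (by simp; omega)
    have e2 : cut w u (w ++ a) = [] := cut_long hL (by simp; omega)
    rw [e1]
    unfold tmul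
    split
    · rfl
    · exact e2

theorem tmul_assoc {w u : List ℕ} (hL : u.length = w.length) (a b c : List ℕ) :
    tmul w u (tmul w u a b) c = tmul w u a (tmul w u b c) := by
  by_cases ha : a = []
  · subst ha; simp [tmul]
  by_cases hb : b = []
  · subst hb; simp [tmul]
  by_cases hc : c = []
  · subst hc; simp [tmul]
  have e1 : tmul w u a b = cut w u (a ++ b) := by
    unfold tmul
    rw [if_neg]
    rintro (h | h)
    · exact ha h
    · exact hb h
  have e2 : tmul w u b c = cut w u (b ++ c) := by
    unfold tmul
    rw [if_neg]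
    rintro (h | h)
    · exact hb h
    · exact hc h
  rw [e1, e2, tmul_cut_left hL hc (by simp [ha]), tmul_cut_right hL ha (by simp [hb]),
    List.append_assoc]

/-- a nilpotent algebra of words in which the words `w` and `u` of maximal length are glued -/
structure TT (w u : List ℕ) (hL : u.length = w.length) : Type where
  /-- the underlying word -/
  val : List ℕ

theorem TT.ext' {w u : List ℕ} {hL : u.length = w.length} {a b : TT w u hL}
    (h : a.val = b.val) : a = b := by
  cases a; cases b; cases h; rfl

instance (w u : List ℕ) (hL : u.length = w.length) : USg (TT w u hL) where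
  mul a b := ⟨tmul w u a.val b.val⟩
  mul_assoc a b c := TT.ext' (tmul_assoc hL _ _ _)
  bar _ := ⟨[]⟩

section
variable {w u : List ℕ} {hL : u.length = w.length}

theorem TT_mul_val (a b : TT w u hL) : (a * b).val = tmul w u a.val b.val := rfl

theorem TT_bar_val (a : TT w u hL) : (bar a).val = [] := rfl

theorem tmul_nil (a : List ℕ) : tmul w u a [] = [] := by simp [tmul]

theorem nil_tmul (a : List ℕ) : tmul w u [] a = [] := by simp [tmul]

theorem TT_bar_mul (a b : TT w u hL) : bar a * b = bar a :=
  TT.ext' (nil_tmul (w := w) (u := u) b.val)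

theorem TT_mul_bar (a b : TT w u hL) : a * bar b = bar b :=
  TT.ext' (tmul_nil (w := w) (u := u) a.val)

theorem tmul_length (hL : u.length = w.length) (a b : List ℕ) : tmul w u a b = [] ∨
    (tmul w u a b).length = a.length + b.length ∧ a.length + b.length ≤ w.length := by
  unfold tmul
  split
  · exact Or.inl rfl
  · rcases cut_cases hL (a ++ b) with ⟨h1, h2⟩ | ⟨h1, h2⟩ | ⟨h1, h2, h3⟩
    · right; rw [h2]
      simp only [List.length_append] at h1 ⊢
      exact ⟨trivial, by omega⟩
    · left; exact h2
    · right; rw [h3]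
      simp only [List.length_append] at h1
      omega

theorem pw_TT (x : TT w u hL) (k : ℕ) : (pw x k).val = [] ∨
    (k + 1 ≤ (pw x k).val.length ∧ (k = 0 ∨ (pw x k).val.length ≤ w.length)) := by
  induction k with
  | zero =>
    by_cases h : x.val = []
    · exact Or.inl h
    · right
      refine ⟨?_, Or.inl rfl⟩
      exact List.length_pos_of_ne_nil h
  | succ k ih =>
    rcases ih with h | ⟨h, -⟩
    · left
      simp only [pw, TT_mul_val, h, nil_tmul]
    · by_cases hx : x.val = []
      · left
        simp only [pw, TT_mul_val, hx, tmul_nil]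
      · have := List.length_pos_of_ne_nil hx
        rcases tmul_length hL (pw x k).val x.val with h1 | ⟨h1, h2⟩
        · left; exact h1
        · right
          simp only [pw, TT_mul_val]
          rw [h1]
          exact ⟨by omega, Or.inr h2⟩

theorem epi_TT : EpiEq (TT w u hL) (w.length + 1) := by
  intro x
  refine ⟨TT.ext' ?_, TT.ext' ?_, TT.ext' ?_⟩
  · simp only [TT_mul_val, TT_bar_val, tmul_nil, nil_tmul]
  · simp only [TT_mul_val, TT_bar_val, tmul_nil]
  · simp only [TT_mul_val, TT_bar_val, tmul_nil]
    rcases pw_TT x (w.length + 1) with h | ⟨h1, h2 | h2⟩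
    · exact h.symm
    · omega
    · omega

/-- evaluation of a word in `TT w u` -/
theorem ev_TT (φ : ℕ → TT w u hL) (l : List ℕ) (hl : 2 ≤ l.length) :
    (ev φ (wd l)).val = if (∃ i ∈ l, (φ i).val = []) then [] else
      cut w u (l.flatMap (fun i => (φ i).val)) := by
  classical
  induction l with
  | nil => simp at hl
  | cons i l ih =>
    match l, ih, hl with
    | [j], ih, hl =>
      simp only [wd, ev, TT_mul_val, tmul, List.mem_cons, List.not_mem_nil, or_false,
        exists_eq_or_imp, exists_eq_left, List.flatMap_cons, List.flatMap_nil, List.append_nil]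
    | j :: k :: l, ih, hl =>
      have ih' := ih (by simp)
      simp only [wd] at ih' ⊢
      simp only [ev, TT_mul_val] at ih' ⊢
      rw [ih']
      by_cases h : ∃ i ∈ j :: k :: l, (φ i).val = []
      · rw [if_pos h, tmul_nil, if_pos]
        obtain ⟨i', hi', h'⟩ := h
        exact ⟨i', List.mem_cons_of_mem _ hi', h'⟩
      · rw [if_neg h]
        by_cases hi : (φ i).val = []
        · rw [hi, nil_tmul, if_pos ⟨i, by simp, hi⟩]
        · rw [tmul_cut_right hL hi, if_neg]
          · simp only [List.flatMap_cons]
          · rintro ⟨i', hi', h'⟩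
            rcases List.mem_cons.1 hi' with rfl | hi'
            · exact hi h'
            · exact h ⟨i', hi', h'⟩
          · push Not at h
            simp only [List.flatMap_cons]
            intro h0
            exact h j (by simp) (List.append_eq_nil_iff.1 h0).1

theorem flatMap_singleton_map (p : ℕ → ℕ) (f : ℕ → List ℕ) (l : List ℕ)
    (h : ∀ i ∈ l, f i = [p i]) : l.flatMap f = l.map p := by
  induction l with
  | nil => rfl
  | cons a l ih =>
    rw [List.flatMap_cons, List.map_cons, h a (by simp),
      ih (fun i hi => h i (List.mem_cons_of_mem _ hi))]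
    rfl

theorem length_flatMap_ge (f : ℕ → List ℕ) (l : List ℕ) (h : ∀ i ∈ l, f i ≠ []) :
    l.length ≤ (l.flatMap f).length := by
  induction l with
  | nil => simp
  | cons a l ih =>
    have h1 := List.length_pos_of_ne_nil (h a (by simp))
    have h2 := ih (fun i hi => h i (List.mem_cons_of_mem _ hi))
    simp only [List.flatMap_cons, List.length_append, List.length_cons]
    omega

theorem length_flatMap_gt (f : ℕ → List ℕ) (l : List ℕ) (h : ∀ i ∈ l, f i ≠ []) {j : ℕ}
    (hj : j ∈ l) (hj2 : 2 ≤ (f j).length) : l.length < (l.flatMap f).length := by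
  induction l with
  | nil => simp at hj
  | cons a l ih =>
    have h1 := List.length_pos_of_ne_nil (h a (by simp))
    simp only [List.flatMap_cons, List.length_append, List.length_cons]
    have h3 := length_flatMap_ge f l (fun i hi => h i (List.mem_cons_of_mem _ hi))
    by_cases hja : j = a
    · subst hja
      omega
    · rcases List.mem_cons.1 hj with hj | hj
      · exact absurd hj hja
      · have h2 := ih (fun i hi => h i (List.mem_cons_of_mem _ hi)) hj
        omega

theorem sat_TT (hlen : 2 ≤ w.length) (hcont : ∀ i, i ∈ w ↔ i ∈ u)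
    (h1 : ∀ p : ℕ → ℕ, w.map p ≠ u) (h2 : ∀ p : ℕ → ℕ, u.map p ≠ w) :
    Sat (TT w u hL) (wd w) (wd u) := by
  intro φ
  apply TT.ext'
  rw [ev_TT φ w hlen, ev_TT φ u (by omega)]
  by_cases hz : ∃ i ∈ w, (φ i).val = []
  · have hz' : ∃ i ∈ u, (φ i).val = [] := by
      obtain ⟨i, hi, h⟩ := hz
      exact ⟨i, (hcont i).1 hi, h⟩
    rw [if_pos hz, if_pos hz']
  · have hz' : ¬ ∃ i ∈ u, (φ i).val = [] := by
      rintro ⟨i, hi, h⟩
      exact hz ⟨i, (hcont i).2 hi, h⟩
    rw [if_neg hz, if_neg hz']
    push Not at hz hz'
    by_cases hlong : ∃ j ∈ w, 2 ≤ (φ j).val.length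
    · obtain ⟨j, hj, hj2⟩ := hlong
      rw [cut_long hL (length_flatMap_gt _ w hz hj hj2), cut_long hL]
      rw [← hL]
      exact length_flatMap_gt _ u hz' ((hcont j).1 hj) hj2
    · push Not at hlong
      have hp : ∀ i ∈ w, (φ i).val = [(φ i).val.headD 0] := by
        intro i hi
        have e1 := hz i hi
        have e2 := hlong i hi
        match h : (φ i).val with
        | [] => exact absurd h e1
        | [a] => rfl
        | a :: b :: l => rw [h] at e2; simp at e2
      rw [flatMap_singleton_map (fun i => (φ i).val.headD 0) _ w hp,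
        flatMap_singleton_map (fun i => (φ i).val.headD 0) _ u
          (fun i hi => hp i ((hcont i).2 hi))]
      generalize (fun i => (φ i).val.headD 0) = p
      rw [cut_full (by simp), cut_full (by simp [hL])]
      by_cases hw : w.map p = w
      · have hpid : ∀ i ∈ w, p i = id i := by
          apply List.map_inj_left.1
          rw [hw, List.map_id]
        have hu : u.map p = u := by
          have : u.map p = u.map id := List.map_inj_left.2 (fun i hi => hpid i ((hcont i).2 hi))
          rw [this, List.map_id]
        rw [if_pos (Or.inl hw), if_pos (Or.inr hu)]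
      · rw [if_neg, if_neg]
        · rintro (h | h)
          · exact h2 p h
          · apply hw
            have hpid : ∀ i ∈ u, p i = id i := by
              apply List.map_inj_left.1
              rw [h, List.map_id]
            have : w.map p = w.map id :=
              List.map_inj_left.2 (fun i hi => hpid i ((hcont i).1 hi))
            rw [this, List.map_id]
        · rintro (h | h)
          · exact hw h
          · exact h1 p h

/-- letters as elements of `TT w u` -/
def letT (w u : List ℕ) (hL : u.length = w.length) (i : ℕ) : TT w u hL := ⟨[i]⟩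

theorem ev_letT (hlen : 2 ≤ w.length) (t : Tm) (h : (ev (letT w u hL) t).val ≠ []) :
    ∃ l, fl t = some l ∧ (ev (letT w u hL) t).val = cut w u l := by
  induction t with
  | v i =>
    have h1 : ([i] : List ℕ).length < w.length := by
      simp only [List.length_cons, List.length_nil]; omega
    exact ⟨[i], rfl, (cut_short h1).symm⟩
  | m s t hs ht =>
    simp only [ev, TT_mul_val] at h ⊢
    have ha : (ev (letT w u hL) s).val ≠ [] := by
      intro h'
      rw [h', nil_tmul] at h
      exact h rfl
    have hb : (ev (letT w u hL) t).val ≠ [] := by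
      intro h'
      rw [h', tmul_nil] at h
      exact h rfl
    obtain ⟨a, ha1, ha2⟩ := hs ha
    obtain ⟨b, hb1, hb2⟩ := ht hb
    refine ⟨a ++ b, by simp [fl, ha1, hb1], ?_⟩
    rw [ha2, hb2]
    rw [ha2] at ha
    rw [hb2] at hb
    rw [ha2, hb2] at h
    have ha0 := fl_ne_nil ha1
    have hb0 := fl_ne_nil hb1
    have hal := List.length_pos_of_ne_nil ha0
    rcases cut_cases hL b with ⟨k1, k2⟩ | ⟨k1, k2⟩ | ⟨k1, k2, k3⟩
    · rw [k2, tmul_cut_left hL hb0 ha0]
    · exact absurd k2 hb
    · exfalso
      rw [k3] at h
      rcases tmul_length hL (cut w u a) w with h' | ⟨h', h''⟩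
      · exact h h'
      · have := List.length_pos_of_ne_nil ha
        omega
  | b t ht => exact absurd rfl h

theorem letT_iso (hlen : 2 ≤ w.length) {t : Tm} (h : Sat (TT w u hL) (wd w) t) :
    fl t = some w ∨ fl t = some u := by
  have hw0 : w ≠ [] := by
    rintro rfl
    simp at hlen
  have e1 : (ev (letT w u hL) (wd w)).val = w := by
    rw [ev_TT _ _ hlen, if_neg]
    · have : w.flatMap (fun i => (letT w u hL i).val) = w.map id :=
        flatMap_singleton_map id _ w (fun i _ => rfl)
      rw [this, List.map_id]
      unfold cut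
      rw [if_neg (by simp), if_pos (Or.inl rfl)]
    · rintro ⟨i, hi, h'⟩
      simp [letT] at h'
  have e2 := congrArg TT.val (h (letT w u hL))
  rw [e1] at e2
  obtain ⟨l, hl, hl2⟩ := ev_letT hlen t (by rw [← e2]; exact hw0)
  rw [← e2] at hl2
  rcases cut_cases hL l with ⟨k1, k2⟩ | ⟨k1, k2⟩ | ⟨k1, k2, k3⟩
  · rw [k2] at hl2
    rw [← hl2] at k1
    omega
  · rw [k2] at hl2
    exact absurd hl2 hw0
  · rcases k2 with rfl | rfl
    · exact Or.inl hl
    · exact Or.inr hl

end

/-- a word with a high power on the left -/
def uL (r : ℕ) : List ℕ := List.replicate r 1 ++ 1 :: 0 :: (RR r).tail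

/-- a word with a high power on the right -/
def uR (r : ℕ) : List ℕ := (0 :: (RR r).tail) ++ 1 :: List.replicate r 1

theorem RR_succ (q : ℕ) : RR (q + 2) = 1 :: 2 :: (RR (q + 2)).tail.tail := by
  unfold RR
  rw [List.range_succ_eq_map, List.map_cons, List.range_succ_eq_map]
  simp

theorem RR_cons (q : ℕ) : RR (q + 2) = 1 :: (RR (q + 2)).tail := by
  rw [RR_succ q]; rfl

theorem length_uL (q : ℕ) : (uL (q + 2)).length = (ww (q + 2)).length := by
  unfold uL ww
  simp only [List.length_append, List.length_replicate, List.length_cons, List.length_tail,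
    length_RR]
  omega

theorem length_uR (q : ℕ) : (uR (q + 2)).length = (ww (q + 2)).length := by
  unfold uR ww
  simp only [List.length_append, List.length_replicate, List.length_cons, List.length_tail,
    length_RR]
  omega

theorem mem_uL (q i : ℕ) : i ∈ ww (q + 2) ↔ i ∈ uL (q + 2) := by
  unfold uL ww
  conv_lhs => rw [RR_cons q]
  simp only [List.mem_append, List.mem_cons, List.mem_replicate]
  tauto

theorem mem_uR (q i : ℕ) : i ∈ ww (q + 2) ↔ i ∈ uR (q + 2) := by
  unfold uR ww
  conv_lhs => rw [RR_cons q]
  simp only [List.mem_append, List.mem_cons, List.mem_replicate]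
  tauto

theorem map_ne_uL (q : ℕ) (p : ℕ → ℕ) : (ww (q + 2)).map p ≠ uL (q + 2) := by
  intro h
  unfold ww uL at h
  rw [List.map_append, List.map_cons] at h
  obtain ⟨h1, h2⟩ := List.append_inj h (by simp [length_RR])
  have e1 : p 1 = 1 := by
    rw [RR_cons q, List.map_cons, List.replicate_succ] at h1
    exact (List.cons.inj h1).1
  have e2 : p 1 = 0 := by
    have h3 := (List.cons.inj h2).2
    rw [RR_cons q, List.map_cons] at h3
    exact (List.cons.inj h3).1
  omega

theorem uL_map_ne (q : ℕ) (p : ℕ → ℕ) : (uL (q + 2)).map p ≠ ww (q + 2) := by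
  intro h
  unfold ww uL at h
  rw [List.map_append] at h
  obtain ⟨h1, h2⟩ := List.append_inj h (by simp [length_RR])
  rw [RR_succ q, List.replicate_succ, List.replicate_succ, List.map_cons, List.map_cons] at h1
  have e1 := (List.cons.inj h1).1
  have e2 := (List.cons.inj (List.cons.inj h1).2).1
  omega

theorem map_ne_uR (q : ℕ) (p : ℕ → ℕ) : (ww (q + 2)).map p ≠ uR (q + 2) := by
  intro h
  unfold ww uR at h
  rw [List.map_append, List.map_cons] at h
  obtain ⟨h1, h2⟩ := List.append_inj h (by simp [length_RR])
  have e1 : p 1 = 0 := by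
    rw [RR_cons q, List.map_cons] at h1
    exact (List.cons.inj h1).1
  have e2 : p 1 = 1 := by
    have h3 := (List.cons.inj h2).2
    rw [RR_cons q, List.map_cons, List.replicate_succ] at h3
    exact (List.cons.inj h3).1
  omega

theorem uR_map_ne (q : ℕ) (p : ℕ → ℕ) : (uR (q + 2)).map p ≠ ww (q + 2) := by
  intro h
  unfold ww uR at h
  rw [List.map_append] at h
  obtain ⟨h1, h2⟩ := List.append_inj h (by simp [length_RR])
  rw [List.map_cons, List.replicate_succ, List.map_cons, RR_cons q] at h2
  have e1 := (List.cons.inj h2).1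
  have e2 := (List.cons.inj (List.cons.inj h2).2).1
  omega

theorem uL_ne_uR (q : ℕ) : uL (q + 2) ≠ uR (q + 2) := by
  unfold uL uR
  rw [List.replicate_succ]
  intro h
  exact absurd (List.cons.inj h).1 (by norm_num)

theorem lv_replicate {S : Type u} [USg S] (φ : ℕ → S) (k i : ℕ) :
    lv φ (List.replicate (k + 1) i) = ((pw (φ i) k : S) : WithOne S) := by
  induction k with
  | zero => simp [pw]
  | succ k ih =>
    rw [List.replicate_succ' , lv_append, ih, lv_cons, lv_nil, mul_one]
    rfl

theorem stepB {E : Tm → Tm → Prop} {n : ℕ} (h : CDT.{u} E n) (hC : Models CC E) : False := by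
  have hiso := isoW h hC (n + 2)
  have hlen : 2 ≤ (ww (n + 2)).length := by rw [length_ww]; omega
  have hw0 : ww (n + 2) ≠ [] := by
    intro h'
    rw [h'] at hlen
    simp at hlen
  have hiso' : Iso (fun s t => Sat (TT (ww (n + 2)) (uL (n + 2)) (length_uL n)) s t ∧
      Sat (TT (ww (n + 2)) (uR (n + 2)) (length_uR n)) s t) (ww (n + 2)) := by
    rintro t ⟨h1, h2⟩
    rcases letT_iso hlen h1 with h1 | h1
    · exact h1
    · rcases letT_iso hlen h2 with h2 | h2
      · exact h2
      · rw [h1] at h2
        exact absurd (Option.some.inj h2) (uL_ne_uR n)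
  have key := h.cd _ _ (BW (ww (n + 2))) _ _
    (epi_TT (w := ww (n + 2)) (u := uL (n + 2)) (hL := length_uL n))
    (epi_TT (w := ww (n + 2)) (u := uR (n + 2)) (hL := length_uR n))
    (BW_models h.thy hiso)
    (fun s t h1 h2 => BW_models ((isThy_sat _).inf (isThy_sat _)) hiso' s t ⟨h1, h2⟩)
    (wd (ww (n + 2))) (.b (.v 0)) ?_ ?_
  · have := congrArg Subtype.val (key (letB _))
    rw [ev_letB hw0, if_pos (List.infix_refl _)] at this
    exact hw0 this
  · intro S _ hS hF φ
    have hE := h.epi S hS
    have hsat : Sat S (wd (ww (n + 2))) (wd (uL (n + 2))) :=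
      hF _ _ (sat_TT hlen (mem_uL n) (map_ne_uL n) (uL_map_ne n))
    have hbar : ∀ a b : S, bar a = bar b := fun a b =>
      hF (.b v0) (.b v1) (fun φ => TT.ext' rfl) (as2 a b)
    have hml : ∀ a b : S, a * bar b = bar b := fun a b =>
      hF (.m v0 (.b v1)) (.b v1) (fun φ => TT_mul_bar _ _)
        (as2 a b)
    have hmr : ∀ a b : S, bar b * a = bar b := fun a b =>
      hF (.m (.b v1) v0) (.b v1) (fun φ => TT_bar_mul _ _)
        (as2 a b)
    rw [hsat φ]
    apply WithOne.coe_injective
    rw [ev_wd φ (by simp [uL])]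
    unfold uL
    have hp : pw (φ 1) (n + 1) = bar (φ 0) := by
      have := ((hE.mono (Nat.le_succ n)) (φ 1)).2.2
      rw [hml] at this
      rw [← this]
      exact hbar _ _
    rw [lv_append, lv_replicate, hp]
    rcases wo_cases (lv φ (1 :: 0 :: (RR (n + 2)).tail)) with h1 | ⟨x, h1⟩
    · rw [h1, mul_one]; rfl
    · rw [h1, ← WithOne.coe_mul, hmr]; rfl
  · intro S _ hS hF φ
    have hE := h.epi S hS
    have hsat : Sat S (wd (ww (n + 2))) (wd (uR (n + 2))) :=
      hF _ _ (sat_TT hlen (mem_uR n) (map_ne_uR n) (uR_map_ne n))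
    have hbar : ∀ a b : S, bar a = bar b := fun a b =>
      hF (.b v0) (.b v1) (fun φ => TT.ext' rfl) (as2 a b)
    have hml : ∀ a b : S, a * bar b = bar b := fun a b =>
      hF (.m v0 (.b v1)) (.b v1) (fun φ => TT_mul_bar _ _)
        (as2 a b)
    have hmr : ∀ a b : S, bar b * a = bar b := fun a b =>
      hF (.m (.b v1) v0) (.b v1) (fun φ => TT_bar_mul _ _)
        (as2 a b)
    rw [hsat φ]
    apply WithOne.coe_injective
    rw [ev_wd φ (by simp [uR])]
    unfold uR
    have hp : pw (φ 1) (n + 2) = bar (φ 0) := by
      have := ((hE.mono (show n ≤ n + 2 by omega)) (φ 1)).2.2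
      rw [hml] at this
      rw [← this]
      exact hbar _ _
    rw [lv_append, ← List.replicate_succ, lv_replicate, hp]
    rcases wo_cases (lv φ (0 :: (RR (n + 2)).tail)) with h1 | ⟨x, h1⟩
    · rw [h1, one_mul]; rfl
    · rw [h1, ← WithOne.coe_mul, hml]; rfl

theorem gp_subgroup {S : Type u} [USg S] {n : ℕ} (hS : EpiEq S n) {x : S} (hx : Gp x) :
    x ∈ Hcl (x * bar x) := by
  have h1 : x * (x * bar x) = x := by rw [← mul_assoc]; exact hx
  have h2 : (x * bar x) * x = x := by
    rw [mul_assoc, ← bar_comm hS]; exact h1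
  have h3 : (x * bar x) * bar x = bar x := by
    rw [bar_comm hS, bar_absorb hS]
  have h4 : bar x * (x * bar x) = bar x := by
    rw [← mul_assoc, bar_absorb hS]
  exact ⟨h2, h1, bar x, h3, h4, rfl, (bar_comm hS x).symm⟩

/-- Every member of a codistributive epigroup variety has a completely regular square. -/
theorem square_completelyRegular (V : EVar.{u}) (hV : Codistributive V) (S : Type u) [USg S]
    (hS : V.mem S) : SquareCompletelyRegular S := by
  obtain ⟨n, h⟩ := cdt_of_codistributive hV
  have hS' : Models S V.thy := (V.mem_iff S).1 hS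
  have hE := h.epi S hS'
  by_cases hC : Models CC V.thy
  · exact (stepB h hC).elim
  · rintro x ⟨a, b, rfl⟩
    have hg := stepA h hC S hS' a b
    refine ⟨Hcl (a * b * bar (a * b)), a * b * bar (a * b), Hcl_sub (id_of hE _), ?_,
      gp_subgroup hE hg⟩
    rintro y ⟨hy, -⟩
    exact ⟨_, _, hy.symm⟩

end Pool.Agent.H66.Epi
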