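import Pool.Agent.H66.Epi.Small

set_option linter.unusedVariables false
set_option linter.unusedSectionVars false
set_option linter.constructorNameAsVariable false

namespace Pool.Agent.H66.Epi

universe u

theorem ev_rev_comm {S : Type u} [USg S] (hc : ∀ a b : S, a * b = b * a) (φ : ℕ → S) (t : Tm) :
    ev φ (rev t) = ev φ t := by
  induction t with
  | v i => rfl
  | m s t hs ht => simp only [rev, ev, hs, ht]; exact hc _ _
  | b t ht => simp only [rev, ev, ht]

theorem comm_CC (a b : CC) : a * b = b * a := by cases a <;> cases b <;> rfl

theorem sat_CC_rev (s t : Tm) : Sat CC (rev s) (rev t) ↔ Sat CC s t := by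
  unfold Sat
  simp only [ev_rev_comm comm_CC]

theorem models_CC_op {E : Tm → Tm → Prop} (h : Models CC (opE E)) : Models CC E := by
  intro s t hst
  rw [← sat_CC_rev]
  apply h
  simpa only [opE, rev_rev] using hst

theorem opE_sat (S : Type u) [USg S] : opE (Sat S) = Sat Sᵐᵒᵖ := by
  funext s t
  simp only [opE, sat_op]

theorem models_QQ_op {E : Tm → Tm → Prop} (h : Models QQ (opE E)) : Models QQᵐᵒᵖ E := by
  intro s t hst
  rw [sat_op]
  apply h
  simpa only [opE, rev_rev] using hst

theorem gp_op {S : Type u} [USg S] {n : ℕ} (hS : EpiEq S n) {x : S}
    (h : Gp (MulOpposite.op x)) : Gp x := by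
  have h1 : bar x * (x * x) = x := by
    apply MulOpposite.op_injective
    rw [MulOpposite.op_mul, MulOpposite.op_mul]
    exact h
  unfold Gp
  have h2 := bar_comm hS x
  calc x * x * bar x = x * (x * bar x) := by rw [mul_assoc]
    _ = x * (bar x * x) := by rw [h2]
    _ = (x * bar x) * x := by rw [mul_assoc]
    _ = bar x * x * x := by rw [h2]
    _ = x := by rw [mul_assoc, h1]

theorem L2' {S : Type u} [USg S] {n : ℕ} (hS : EpiEq S n) (hC : ¬ Models CC (Sat S))
    (hQ : ¬ Models QQᵐᵒᵖ (Sat S)) {e : S} (he : e * e = e) (y : S) : Gp (e * y) := by
  apply gp_op hS
  rw [MulOpposite.op_mul]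
  apply L2 (epiEq_op hS)
  · intro h
    rw [← opE_sat] at h
    exact hC (models_CC_op h)
  · intro h
    rw [← opE_sat] at h
    exact hQ (models_QQ_op h)
  · rw [← MulOpposite.op_mul, he]

/-- the word of a term without bars -/
def fl : Tm → Option (List ℕ)
  | .v i => some [i]
  | .m s t => match fl s, fl t with
    | some a, some b => some (a ++ b)
    | _, _ => none
  | .b _ => none

theorem fl_m {s t : Tm} {l : List ℕ} (h : fl (.m s t) = some l) :
    ∃ a b, fl s = some a ∧ fl t = some b ∧ l = a ++ b := by
  simp only [fl] at h
  split at h
  · rename_i a b ha hb
    exact ⟨a, b, ha, hb, (Option.some.inj h).symm⟩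
  · exact absurd h (by simp)

theorem fl_ne_nil {t : Tm} {l : List ℕ} (h : fl t = some l) : l ≠ [] := by
  induction t generalizing l with
  | v i => simp only [fl, Option.some.injEq] at h; subst h; simp
  | m s t hs ht =>
    obtain ⟨a, b, ha, hb, rfl⟩ := fl_m h
    have := hs ha
    simp [this]
  | b t ht => simp [fl] at h

theorem fl_single {t : Tm} {p : ℕ} (h : fl t = some [p]) : t = .v p := by
  cases t with
  | v i => simp only [fl, Option.some.injEq, List.cons.injEq, and_true] at h; rw [h]
  | m s t =>
    obtain ⟨a, b, ha, hb, hab⟩ := fl_m h
    have h1 := fl_ne_nil ha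
    have h2 := fl_ne_nil hb
    have := congrArg List.length hab
    have h3 := List.length_pos_of_ne_nil h1
    have h4 := List.length_pos_of_ne_nil h2
    simp at this
    omega
  | b t => simp [fl] at h

theorem fl_pair {t : Tm} {p q : ℕ} (h : fl t = some [p, q]) : t = .m (.v p) (.v q) := by
  cases t with
  | v i => simp [fl] at h
  | m s t =>
    obtain ⟨a, b, ha, hb, hab⟩ := fl_m h
    have h1 := fl_ne_nil ha
    have h2 := fl_ne_nil hb
    match a, b, h1, h2, hab with
    | [x], [y], _, _, hab =>
      simp at hab
      rw [fl_single ha, fl_single hb, hab.1, hab.2]
    | x :: y :: l, z :: l', _, _, hab =>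
      have := congrArg List.length hab
      simp at this
    | [x], y :: z :: l, _, _, hab =>
      have := congrArg List.length hab
      simp at this
  | b t => simp [fl] at h

/-- product of a word -/
def lv {S : Type u} [USg S] (φ : ℕ → S) (l : List ℕ) : WithOne S :=
  (l.map (fun i => (φ i : WithOne S))).prod

@[simp] theorem lv_nil {S : Type u} [USg S] (φ : ℕ → S) : lv φ [] = 1 := rfl

@[simp] theorem lv_cons {S : Type u} [USg S] (φ : ℕ → S) (i : ℕ) (l : List ℕ) :
    lv φ (i :: l) = (φ i : WithOne S) * lv φ l := by
  simp [lv]

theorem lv_append {S : Type u} [USg S] (φ : ℕ → S) (l l' : List ℕ) :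
    lv φ (l ++ l') = lv φ l * lv φ l' := by
  simp [lv]

theorem lv_congr {S : Type u} [USg S] {φ ψ : ℕ → S} {l : List ℕ} (h : ∀ i ∈ l, φ i = ψ i) :
    lv φ l = lv ψ l := by
  unfold lv
  congr 1
  apply List.map_congr_left
  intro i hi
  rw [h i hi]

theorem ev_fl {S : Type u} [USg S] (φ : ℕ → S) {t : Tm} {l : List ℕ} (h : fl t = some l) :
    ((ev φ t : S) : WithOne S) = lv φ l := by
  induction t generalizing l with
  | v i =>
    simp only [fl, Option.some.injEq] at h
    subst h
    simp [ev]
  | m s t hs ht =>
    obtain ⟨a, b, ha, hb, rfl⟩ := fl_m h
    rw [lv_append, ← hs ha, ← ht hb]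
    rfl
  | b t ht => simp [fl] at h

theorem wo_cases {S : Type u} (u : WithOne S) : u = 1 ∨ ∃ w : S, u = w := by
  induction u using WithOne.recOneCoe with
  | one => exact Or.inl rfl
  | coe a => exact Or.inr ⟨a, rfl⟩

section
variable {S : Type u} [USg S] {n : ℕ} (hS : EpiEq S n)
include hS

theorem idF_fl_none (φ : ℕ → S) {t : Tm} (h : fl t = none) : IdF (ev φ t) := by
  induction t with
  | v i => simp [fl] at h
  | m s t hs ht =>
    by_cases h1 : fl s = none
    · exact idF_mul_right hS (hs h1) _
    · by_cases h2 : fl t = none
      · exact idF_mul_left hS (ht h2) _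
      · exfalso
        obtain ⟨a, ha⟩ := Option.ne_none_iff_exists'.1 h1
        obtain ⟨b, hb⟩ := Option.ne_none_iff_exists'.1 h2
        simp [fl, ha, hb] at h
  | b t ht => exact idF_bar hS _

theorem idF_factor {x c : S} (u w : WithOne S) (hc : IdF c)
    (h : (x : WithOne S) = u * (c * w)) : IdF x := by
  rcases wo_cases u with rfl | ⟨u, rfl⟩ <;> rcases wo_cases w with rfl | ⟨w, rfl⟩
  · simp only [mul_one, one_mul, WithOne.coe_inj] at h
    rw [h]; exact hc
  · rw [one_mul, ← WithOne.coe_mul, WithOne.coe_inj] at h
    rw [h]; exact idF_mul_right hS hc _
  · rw [mul_one, ← WithOne.coe_mul, WithOne.coe_inj] at h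
    rw [h]; exact idF_mul_left hS hc _
  · rw [← WithOne.coe_mul, ← WithOne.coe_mul, WithOne.coe_inj] at h
    rw [h]; exact idF_mul_left hS (idF_mul_right hS hc _) _

theorem idF_absorb1 {x c : S} (w : WithOne S)
    (h : (x : WithOne S) = x * (c * w)) : IdF x := by
  rcases wo_cases w with rfl | ⟨w, rfl⟩
  · rw [mul_one, ← WithOne.coe_mul, WithOne.coe_inj] at h
    exact idF_of_absorb hS h
  · rw [← WithOne.coe_mul, ← WithOne.coe_mul, WithOne.coe_inj] at h
    exact idF_of_absorb hS h

theorem idF_idem {e : S} (he : e = e * e) : IdF e := ⟨e, he.symm, Or.inl rfl⟩

theorem L3core {s t : Tm} (hst : Sat S s t) (φ : ℕ → XC) (hne : ev φ s ≠ ev φ t)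
    (hnz : ev φ s ≠ .z) (a b : S) : IdF (a * b) := by
  cases s with
  | b s => exact absurd rfl hnz
  | v i =>
    obtain ⟨x, hx⟩ : ∃ x, x = a * b := ⟨_, rfl⟩
    rw [← hx]
    rcases hfl : fl t with _ | l
    · have h1 : x = ev (fun _ => x) t := hst (fun _ => x)
      rw [h1]
      exact idF_fl_none hS _ hfl
    · have h1 : (x : WithOne S) = lv (fun _ => x) l := by
        rw [← ev_fl _ hfl]
        exact congrArg _ (hst (fun _ => x))
      match l, hfl, h1 with
      | [], hfl, h1 => exact absurd rfl (fl_ne_nil hfl)
      | [p], hfl, h1 =>
        have ht := fl_single hfl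
        subst ht
        have hip : i ≠ p := by
          rintro rfl
          exact hne rfl
        have := hst (fun k => if k = i then x else x * x)
        simp only [ev, if_true, if_neg hip.symm] at this
        exact idF_idem hS this
      | p :: q :: l, hfl, h1 =>
        simp only [lv_cons] at h1
        exact idF_absorb1 hS _ h1
  | m s1 s2 =>
    have hvar : ∀ r : Tm, ev φ r = .x ∨ ev φ r = .y → ∃ i, r = .v i := by
      intro r hr
      cases r with
      | v i => exact ⟨i, rfl⟩
      | m r1 r2 =>
        exfalso
        simp only [ev] at hr
        generalize ev φ r1 = u at hr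
        generalize ev φ r2 = w at hr
        revert hr
        cases u <;> cases w <;> decide
      | b r =>
        exfalso
        simp only [ev] at hr
        rcases hr with hr | hr <;> exact absurd hr (by change XC.z ≠ _; decide)
    have hcase : (ev φ s1 = .x ∧ ev φ s2 = .y) ∨ (ev φ s1 = .y ∧ ev φ s2 = .x) := by
      simp only [ev] at hnz
      generalize ev φ s1 = u at hnz ⊢
      generalize ev φ s2 = w at hnz ⊢
      revert hnz
      cases u <;> cases w <;> decide
    obtain ⟨i, rfl⟩ := hvar s1 (by rcases hcase with h | h; exacts [Or.inl h.1, Or.inr h.1])
    obtain ⟨j, rfl⟩ := hvar s2 (by rcases hcase with h | h; exacts [Or.inr h.2, Or.inl h.2])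
    simp only [ev] at hcase
    have hij : i ≠ j := by
      rintro rfl
      rcases hcase with ⟨h1, h2⟩ | ⟨h1, h2⟩ <;> rw [h1] at h2 <;> exact absurd h2 (by decide)
    have hsq : ∀ l, fl t = some l → 3 ≤ l.length → ∀ z : S, IdF (z * z) := by
      intro l hl hlen z
      match l, hl, hlen with
      | p :: q :: r :: l, hl, hlen =>
        have h1 : ((z * z : S) : WithOne S) = lv (fun _ => z) (p :: q :: r :: l) := by
          rw [← ev_fl _ hl]
          exact congrArg _ (hst (fun _ => z))
        simp only [lv_cons] at h1
        apply idF_absorb1 hS (c := z) (lv (fun _ => z) l)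
        rw [WithOne.coe_mul] at h1 ⊢
        exact h1.trans (mul_assoc _ _ _).symm
    rcases hfl : fl t with _ | l
    · have h1 := hst (fun k => if k = i then a else b)
      simp only [ev, if_true, if_neg hij.symm] at h1
      rw [h1]
      exact idF_fl_none hS _ hfl
    · by_cases hil : i ∈ l
      · by_cases hjl : j ∈ l
        · match l, hfl, hil, hjl with
          | [], hfl, _, _ => exact absurd rfl (fl_ne_nil hfl)
          | [p], hfl, hil, hjl =>
            simp only [List.mem_singleton] at hil hjl
            exact absurd (hil.trans hjl.symm) hij
          | [p, q], hfl, hil, hjl =>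
            exfalso
            apply hne
            rw [fl_pair hfl]
            simp only [ev]
            simp only [List.mem_cons, List.not_mem_nil, or_false] at hil hjl
            rcases hil with rfl | rfl <;> rcases hjl with rfl | rfl
            · exact absurd rfl hij
            · rfl
            · generalize φ i = u
              generalize φ j = w
              cases u <;> cases w <;> rfl
            · exact absurd rfl hij
          | p :: q :: r :: l, hfl, hil, hjl =>
            have hsq' := hsq _ hfl (by simp)
            have key : ∀ a b : S, ((a * b : S) : WithOne S) =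
                lv (fun k => if k = j then b else a) (p :: q :: r :: l) := by
              intro a b
              rw [← ev_fl _ hfl]
              have := hst (fun k => if k = j then b else a)
              simp only [ev, if_true, if_neg hij] at this
              exact congrArg _ this
            simp only [lv_cons] at key
            have sq0 : ∀ (x c : S) (w : WithOne S), (x : WithOne S) = c * (c * w) → IdF x := by
              intro x c w h
              apply idF_factor hS 1 w (hsq' c)
              rw [one_mul, WithOne.coe_mul, mul_assoc]
              exact h
            have sq1 : ∀ (x d c : S) (w : WithOne S), (x : WithOne S) = d * (c * (c * w)) →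
                IdF x := by
              intro x d c w h
              apply idF_factor hS d w (hsq' c)
              rw [WithOne.coe_mul, mul_assoc]
              exact h
            have sq2 : ∀ (x d d' c : S) (w : WithOne S),
                (x : WithOne S) = d * (d' * (c * (c * w))) → IdF x := by
              intro x d d' c w h
              apply idF_factor hS (d * d') w (hsq' c)
              rw [WithOne.coe_mul, mul_assoc, mul_assoc]
              exact h
            have sq3 : ∀ (x c d : S) (w : WithOne S),
                (x : WithOne S) = c * (d * (c * (d * w))) → IdF x := by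
              intro x c d w h
              apply idF_factor hS 1 w (hsq' (c * d))
              rw [one_mul, WithOne.coe_mul, WithOne.coe_mul]
              simp only [mul_assoc]
              exact h
            by_cases hp : p = j <;> by_cases hq : q = j <;> by_cases hr : r = j <;>
              simp only [hp, hq, hr, if_true, if_false] at key
            · exact sq0 _ _ _ (key a b)
            · exact sq0 _ _ _ (key a b)
            · match l, key with
              | [], key =>
                have k2 : ∀ a b : S, a * b = b * (a * b) := by
                  intro a b
                  have := key a b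
                  rw [lv_nil, mul_one, ← WithOne.coe_mul, ← WithOne.coe_mul,
                    WithOne.coe_inj] at this
                  exact this
                apply idF_idem hS
                calc a * b = b * (a * b) := k2 a b
                  _ = (b * a) * b := by rw [mul_assoc]
                  _ = (a * (b * a)) * b := by rw [← k2 b a]
                  _ = _ := by simp only [mul_assoc]
              | k :: l, key =>
                by_cases hk : k = j <;> simp only [lv_cons, hk, if_true, if_false] at key
                · exact sq2 _ _ _ _ _ (key a b)
                · exact sq3 _ _ _ _ (key a b)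
            · exact sq1 _ _ _ _ (key a b)
            · exact sq1 _ _ _ _ (key a b)
            · match l, key with
              | [], key =>
                have k2 : ∀ a b : S, a * b = a * (b * a) := by
                  intro a b
                  have := key a b
                  rw [lv_nil, mul_one, ← WithOne.coe_mul, ← WithOne.coe_mul,
                    WithOne.coe_inj] at this
                  exact this
                apply idF_idem hS
                calc a * b = a * (b * a) := k2 a b
                  _ = a * (b * (a * b)) := by rw [← k2 b a]
                  _ = _ := by simp only [mul_assoc]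
              | k :: l, key =>
                by_cases hk : k = j <;> simp only [lv_cons, hk, if_true, if_false] at key
                · exact sq3 _ _ _ _ (key a b)
                · exact sq2 _ _ _ _ _ (key a b)
            · exact sq0 _ _ _ (key a b)
            · exact sq0 _ _ _ (key a b)
        · -- a * b does not depend on b
          have h1 : ∀ a b c : S, a * b = a * c := by
            intro a b c
            have e1 := hst (fun k => if k = j then b else a)
            have e2 := hst (fun k => if k = j then c else a)
            simp only [ev, if_true, if_neg hij] at e1 e2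
            rw [e1, e2]
            apply WithOne.coe_injective
            rw [ev_fl _ hfl, ev_fl _ hfl]
            apply lv_congr
            intro k hk
            have : k ≠ j := fun h => hjl (h ▸ hk)
            simp only [if_neg this]
          apply idF_idem hS
          rw [mul_assoc]
          exact h1 _ _ _
      · have h1 : ∀ a b c : S, a * b = c * b := by
          intro a b c
          have e1 := hst (fun k => if k = i then a else b)
          have e2 := hst (fun k => if k = i then c else b)
          simp only [ev, if_true, if_neg hij.symm] at e1 e2
          rw [e1, e2]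
          apply WithOne.coe_injective
          rw [ev_fl _ hfl, ev_fl _ hfl]
          apply lv_congr
          intro k hk
          have : k ≠ i := fun h => hil (h ▸ hk)
          simp only [if_neg this]
        apply idF_idem hS
        rw [← mul_assoc]
        exact h1 _ _ _

end

end Pool.Agent.H66.Epi
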