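import Pool.Agent.H66.Epi.Theory

set_option linter.unusedVariables false
set_option linter.unusedSectionVars false
set_option linter.constructorNameAsVariable false

namespace Pool.Agent.H66.Epi

universe u

/-- group elements -/
def Gp {S : Type u} [USg S] (x : S) : Prop := x * x * bar x = x

/-- elements with an idempotent factor -/
def IdF {S : Type u} [USg S] (x : S) : Prop :=
  ∃ e : S, e * e = e ∧ (x = e ∨ (∃ a, x = a * e) ∨ (∃ b, x = e * b) ∨ ∃ a b, x = a * e * b)

section
variable {S : Type u} [USg S] {n : ℕ} (hS : EpiEq S n)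
include hS

theorem bar_comm (x : S) : x * bar x = bar x * x := (hS x).1

theorem bar_absorb (x : S) : bar x * x * bar x = bar x := (hS x).2.1

theorem id_of (x : S) : (x * bar x) * (x * bar x) = x * bar x := by
  calc (x * bar x) * (x * bar x) = x * (bar x * x * bar x) := by simp only [mul_assoc]
    _ = _ := by rw [(hS x).2.1]

theorem bar_eq (x : S) : bar x = x * x * (bar x * bar x * bar x) := by
  have h1 : bar x = x * (bar x * bar x) := by
    rw [← mul_assoc, (hS x).1, (hS x).2.1]
  exact h1.trans ((congrArg (fun u => x * (u * bar x)) h1).trans (by simp only [mul_assoc]))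

theorem bar_eq' (x : S) : bar x = bar x * bar x * bar x * (x * x) := by
  have h1 : bar x = (bar x * bar x) * x := by
    rw [mul_assoc, ← (hS x).1, ← mul_assoc, (hS x).2.1]
  exact h1.trans ((congrArg (fun u => (bar x * u) * x) h1).trans (by simp only [mul_assoc]))

theorem pw_absorb (x : S) : pw x n * (x * bar x) = pw x n := by
  rw [← mul_assoc, (hS x).2.2]

theorem pw_absorb' (x : S) : (x * bar x) * pw x n = pw x n := by
  have : x * (x * bar x) = (x * bar x) * x := by
    rw [mul_assoc, ← (hS x).1]
  rw [← pw_comm' this n, pw_absorb hS]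

theorem gp_of_idem {e : S} (he : e * e = e) : Gp e := by
  have h := (hS e).2.2
  rw [pw_idem he, he] at h
  unfold Gp
  rw [he, h]

theorem bar_idem {e : S} (he : e * e = e) : bar e = e := by
  have h : e * bar e = e := by
    have h := (hS e).2.2
    rwa [pw_idem he, he] at h
  have h2 : bar e * e = e := by rw [← (hS e).1, h]
  have h3 := (hS e).2.1
  rw [h2, h] at h3
  exact h3.symm

theorem gp_of_right {c t : S} (h : c = c * c * t) : Gp c := by
  have key : ∀ k, ∃ w, c = pw c (k + 1) * w := by
    intro k
    induction k with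
    | zero => exact ⟨t, h⟩
    | succ k ih =>
      obtain ⟨w, hw⟩ := ih
      refine ⟨w * t, ?_⟩
      calc c = c * c * t := h
        _ = c * (pw c (k + 1) * w) * t := by rw [← hw]
        _ = (c * pw c (k + 1)) * (w * t) := by simp only [mul_assoc]
        _ = _ := by rw [pw_comm]; rfl
  obtain ⟨w, hw⟩ := key n
  have h2 : c = pw c n * (c * w) := by
    rw [← mul_assoc]; exact hw
  have h3 : (c * bar c) * c = c := by
    calc (c * bar c) * c = (c * bar c) * (pw c n * (c * w)) := by rw [← h2]
      _ = (c * bar c * pw c n) * (c * w) := by simp only [mul_assoc]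
      _ = c := by rw [pw_absorb' hS, ← h2]
  unfold Gp
  rw [mul_assoc, bar_comm hS, ← mul_assoc, h3]

theorem gp_of_left {c t : S} (h : c = t * (c * c)) : Gp c := by
  have key : ∀ k, ∃ w, c = w * pw c (k + 1) := by
    intro k
    induction k with
    | zero => exact ⟨t, h⟩
    | succ k ih =>
      obtain ⟨w, hw⟩ := ih
      refine ⟨t * w, ?_⟩
      calc c = t * (c * c) := h
        _ = t * ((w * pw c (k + 1)) * c) := by rw [← hw]
        _ = _ := by simp only [pw, mul_assoc]
  obtain ⟨w, hw⟩ := key n
  have h2 : c = (w * c) * pw c n := by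
    rw [mul_assoc, pw_comm]; exact hw
  have h3 : c * (c * bar c) = c := by
    calc c * (c * bar c) = ((w * c) * pw c n) * (c * bar c) := by rw [← h2]
      _ = (w * c) * (pw c n * (c * bar c)) := by simp only [mul_assoc]
      _ = c := by rw [pw_absorb hS, ← h2]
  unfold Gp
  rw [mul_assoc, h3]

theorem idF_mul_right {x : S} (h : IdF x) (y : S) : IdF (x * y) := by
  obtain ⟨e, he, h | ⟨a, h⟩ | ⟨b, h⟩ | ⟨a, b, h⟩⟩ := h
  · exact ⟨e, he, Or.inr (Or.inr (Or.inl ⟨y, by rw [h]⟩))⟩
  · exact ⟨e, he, Or.inr (Or.inr (Or.inr ⟨a, y, by rw [h]⟩))⟩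
  · exact ⟨e, he, Or.inr (Or.inr (Or.inl ⟨b * y, by rw [h, mul_assoc]⟩))⟩
  · exact ⟨e, he, Or.inr (Or.inr (Or.inr ⟨a, b * y, by rw [h, mul_assoc]⟩))⟩

theorem idF_mul_left {x : S} (h : IdF x) (y : S) : IdF (y * x) := by
  obtain ⟨e, he, h | ⟨a, h⟩ | ⟨b, h⟩ | ⟨a, b, h⟩⟩ := h
  · exact ⟨e, he, Or.inr (Or.inl ⟨y, by rw [h]⟩)⟩
  · exact ⟨e, he, Or.inr (Or.inl ⟨y * a, by rw [h, mul_assoc]⟩)⟩
  · exact ⟨e, he, Or.inr (Or.inr (Or.inr ⟨y, b, by rw [h, mul_assoc]⟩))⟩
  · exact ⟨e, he, Or.inr (Or.inr (Or.inr ⟨y * a, b, by rw [h]; simp only [mul_assoc]⟩))⟩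

theorem idF_bar (x : S) : IdF (bar x) := by
  refine ⟨x * bar x, id_of hS x, Or.inr (Or.inr (Or.inl ⟨bar x, ?_⟩))⟩
  rw [bar_comm hS, bar_absorb hS]

theorem idF_pw (x : S) : IdF (pw x n) := by
  exact ⟨x * bar x, id_of hS x, Or.inr (Or.inl ⟨pw x n, (pw_absorb hS x).symm⟩)⟩

theorem idF_of_absorb {x w : S} (h : x = x * w) : IdF x := by
  have key : ∀ k, x = x * pw w k := by
    intro k
    induction k with
    | zero => exact h
    | succ k ih => simp only [pw]; rw [← mul_assoc, ← ih, ← h]
  rw [key n]
  exact idF_mul_left hS (idF_pw hS w) x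

theorem idF_of_absorb' {x w : S} (h : x = w * x) : IdF x := by
  have key : ∀ k, x = pw w k * x := by
    intro k
    induction k with
    | zero => exact h
    | succ k ih => simp only [pw]; rw [mul_assoc, ← h, ← ih]
  rw [key n]
  exact idF_mul_right hS (idF_pw hS w) x

theorem gp_of_idF (h1 : ∀ e y : S, e * e = e → Gp (e * y)) (h2 : ∀ e y : S, e * e = e → Gp (y * e))
    {x : S} (h : IdF x) : Gp x := by
  obtain ⟨e, he, h | ⟨a, h⟩ | ⟨b, h⟩ | ⟨a, b, h⟩⟩ := h
  · subst h; exact gp_of_idem hS he
  · subst h; exact h2 e a he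
  · subst h; exact h1 e b he
  · have hp : Gp (a * e) := h2 e a he
    have hf := id_of hS (a * e)
    have hfp : ((a * e) * bar (a * e)) * (a * e) = a * e := by
      rw [mul_assoc, ← bar_comm hS, ← mul_assoc]
      exact hp
    have := h1 _ x hf
    have hx : ((a * e) * bar (a * e)) * x = x := by
      rw [h, ← mul_assoc, hfp]
    rwa [hx] at this

end

/-- the commutative monoid `{1, c, 0}` with `c² = 0` -/
inductive CC | i | c | z
  deriving DecidableEq

instance : USg CC where
  mul x y := match x, y with
    | .i, y => y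
    | x, .i => x
    | _, _ => .z
  mul_assoc x y z := by cases x <;> cases y <;> cases z <;> rfl
  bar x := match x with
    | .i => .i
    | _ => .z

/-- `{e, a, 0}` with `a e = a`, `e a = 0`, `a a = 0` -/
inductive QQ | e | a | z
  deriving DecidableEq

instance : USg QQ where
  mul x y := match x, y with
    | .e, .e => .e
    | .a, .e => .a
    | _, _ => .z
  mul_assoc x y z := by cases x <;> cases y <;> cases z <;> rfl
  bar x := match x with
    | .e => .e
    | _ => .z

/-- the two-element left zero semigroup -/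
inductive LZ | p | q
  deriving DecidableEq

instance : USg LZ where
  mul x y := x
  mul_assoc x y z := rfl
  bar x := x

/-- `{x, y, m, 0}` with `x y = y x = m` and all other products `0` -/
inductive XC | x | y | m | z
  deriving DecidableEq

instance : USg XC where
  mul x y := match x, y with
    | .x, .y => .m
    | .y, .x => .m
    | _, _ => .z
  mul_assoc x y z := by cases x <;> cases y <;> cases z <;> rfl
  bar x := .z

theorem epi_CC : EpiEq CC 1 := by
  intro x; cases x <;> exact ⟨rfl, rfl, rfl⟩

theorem epi_QQ : EpiEq QQ 1 := by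
  intro x; cases x <;> exact ⟨rfl, rfl, rfl⟩

theorem epi_LZ : EpiEq LZ 0 := by
  intro x; cases x <;> exact ⟨rfl, rfl, rfl⟩

theorem epi_XC : EpiEq XC 2 := by
  intro x; cases x <;> exact ⟨rfl, rfl, rfl⟩

theorem L1 {S : Type u} [USg S] {n : ℕ} (hS : EpiEq S n) (hC : ¬ Models CC (Sat S)) {e : S}
    (he : e * e = e) (y : S) : Gp (e * y * e) := by
  by_contra hg
  apply hC
  obtain ⟨g, hgdef⟩ : ∃ g, g = e * y * e := ⟨_, rfl⟩
  rw [← hgdef] at hg
  have heg : e * g = g := by rw [hgdef, ← mul_assoc, ← mul_assoc, he]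
  have hge : g * e = g := by rw [hgdef, mul_assoc, he]
  let R : S → CC → Prop := fun s b => match b with
    | .i => s = e
    | .c => s = g
    | .z => s = g * g ∨ ∃ t, s = g * g * t
  have hz : ∀ s, R s .z → R (e * s) .z := by
    rintro s (h | ⟨t, h⟩)
    · left; rw [h, ← mul_assoc, heg]
    · right; exact ⟨t, by rw [h, ← mul_assoc, ← mul_assoc, heg]⟩
  have hz2 : ∀ s r, R s .z → R (s * r) .z := by
    rintro s r (h | ⟨t, h⟩)
    · right; exact ⟨r, by rw [h]⟩
    · right; exact ⟨t * r, by rw [h, mul_assoc]⟩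
  have hz3 : ∀ s, R s .z → R (g * s) .z := by
    rintro s (h | ⟨t, h⟩)
    · right; exact ⟨g, by rw [h, mul_assoc]⟩
    · right; exact ⟨g * t, by rw [h]; simp only [mul_assoc]⟩
  have hz4 : ∀ s r, R s .z → R r .z → R (s * r) .z := fun s r h _ => hz2 s r h
  have hng : ¬ R g .z := by
    rintro (h | ⟨t, h⟩)
    · exact hg (gp_of_idem hS h.symm)
    · exact hg (gp_of_right hS h)
  have hne : ¬ R e .z := by
    intro h
    exact hng (heg ▸ hz2 e g h)
  have heg' : e ≠ g := by
    rintro h
    exact hg (h ▸ gp_of_idem hS he)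
  intro s t hst
  refine sat_of_rel R ?_ ?_ ?_ ?_ hst
  · rintro p q (_ | _ | _) (_ | _ | _) hp hq
    · exact (show p * q = e by rw [show p = e from hp, show q = e from hq, he])
    · exact (show p * q = g by rw [show p = e from hp, show q = g from hq, heg])
    · exact (show p = e from hp) ▸ hz q hq
    · exact (show p * q = g by rw [show p = g from hp, show q = e from hq, hge])
    · exact Or.inl (by rw [show p = g from hp, show q = g from hq])
    · exact (show p = g from hp) ▸ hz3 q hq
    · exact hz2 p q hp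
    · exact hz2 p q hp
    · exact hz2 p q hp
  · rintro p (_ | _ | _) hp
    · exact (show bar p = e by rw [show p = e from hp, bar_idem hS he])
    · right
      exact ⟨_, by rw [show p = g from hp]; exact bar_eq hS g⟩
    · have : R (p * (p * (bar p * bar p * bar p))) .z := hz2 _ _ hp
      rw [← mul_assoc, ← bar_eq hS] at this
      exact this
  · rintro p (_ | _ | _) (_ | _ | _) hp hq
    · rfl
    · exact absurd ((show p = e from hp).symm.trans hq) heg'
    · exact absurd ((show p = e from hp) ▸ hq) hne
    · exact absurd ((show p = e from hq).symm.trans hp) heg'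
    · rfl
    · exact absurd ((show p = g from hp) ▸ hq) hng
    · exact absurd ((show p = e from hq) ▸ hp) hne
    · exact absurd ((show p = g from hq) ▸ hp) hng
    · rfl
  · rintro (_ | _ | _)
    · exact ⟨e, rfl⟩
    · exact ⟨g, rfl⟩
    · exact ⟨g * g, Or.inl rfl⟩

theorem L2 {S : Type u} [USg S] {n : ℕ} (hS : EpiEq S n) (hC : ¬ Models CC (Sat S))
    (hQ : ¬ Models QQ (Sat S)) {e : S} (he : e * e = e) (y : S) : Gp (y * e) := by
  by_contra hg
  apply hQ
  obtain ⟨c, hcdef⟩ : ∃ c, c = y * e := ⟨_, rfl⟩
  rw [← hcdef] at hg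
  have hce : c * e = c := by rw [hcdef, mul_assoc, he]
  let R : S → QQ → Prop := fun s b => match b with
    | .e => s = e
    | .a => s = c
    | .z => s = e * c ∨ s = c * c ∨ ∃ t, s = t * (c * c)
  have hz1 : ∀ s, R s .z → R (s * e) .z := by
    rintro s (h | h | ⟨t, h⟩)
    · left; rw [h, mul_assoc, hce]
    · right; left; rw [h, mul_assoc, hce]
    · right; right; exact ⟨t, by rw [h]; simp only [mul_assoc]; rw [hce]⟩
  have hz2 : ∀ s, R s .z → R (s * c) .z := by
    rintro s (h | h | ⟨t, h⟩)
    · right; right; exact ⟨e, by rw [h, mul_assoc]⟩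
    · right; right; exact ⟨c, by rw [h]; simp only [mul_assoc]⟩
    · right; right; exact ⟨t * c, by rw [h]; simp only [mul_assoc]⟩
  have hz3 : ∀ s r, R s .z → R r .z → R (s * r) .z := by
    rintro s r hs (h | h | ⟨t, h⟩)
    · rw [h, ← mul_assoc]
      exact hz2 _ (hz1 _ hs)
    · rw [h, ← mul_assoc]
      exact hz2 _ (hz2 _ hs)
    · right; right; exact ⟨s * t, by rw [h]; simp only [mul_assoc]⟩
  have hz4 : ∀ r, R r .z → R (e * r) .z := by
    rintro r (h | h | ⟨t, h⟩)
    · left; rw [h, ← mul_assoc, he]
    · right; right; exact ⟨e, by rw [h]⟩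
    · right; right; exact ⟨e * t, by rw [h, mul_assoc]⟩
  have hz5 : ∀ r, R r .z → R (c * r) .z := by
    rintro r (h | h | ⟨t, h⟩)
    · right; left; rw [h, ← mul_assoc, hce]
    · right; right; exact ⟨c, by rw [h]⟩
    · right; right; exact ⟨c * t, by rw [h, mul_assoc]⟩
  have hnc : ¬ R c .z := by
    rintro (h | h | ⟨t, h⟩)
    · have := L1 hS hC he y
      rw [mul_assoc, ← hcdef, ← h] at this
      exact hg this
    · exact hg (gp_of_idem hS h.symm)
    · exact hg (gp_of_left hS h)
  have hne : ¬ R e .z := by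
    intro h
    exact hnc (hce ▸ hz5 e h)
  have hec : e ≠ c := by
    rintro h
    exact hg (h ▸ gp_of_idem hS he)
  intro s t hst
  refine sat_of_rel R ?_ ?_ ?_ ?_ hst
  · rintro p q (_ | _ | _) (_ | _ | _) hp hq
    · exact (show p * q = e by rw [show p = e from hp, show q = e from hq, he])
    · exact Or.inl (by rw [show p = e from hp, show q = c from hq])
    · exact (show p = e from hp) ▸ hz4 q hq
    · exact (show p * q = c by rw [show p = c from hp, show q = e from hq, hce])
    · exact Or.inr (Or.inl (by rw [show p = c from hp, show q = c from hq]))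
    · exact (show p = c from hp) ▸ hz5 q hq
    · exact (show q = e from hq) ▸ hz1 p hp
    · exact (show q = c from hq) ▸ hz2 p hp
    · exact hz3 p q hp hq
  · rintro p (_ | _ | _) hp
    · exact (show bar p = e by rw [show p = e from hp, bar_idem hS he])
    · right; right
      exact ⟨_, by rw [show p = c from hp]; exact bar_eq' hS c⟩
    · rcases hp with h | h | ⟨t, h⟩
      · have h2 := bar_eq' hS p
        right; right
        refine ⟨bar p * bar p * bar p * e, ?_⟩
        calc bar p = bar p * bar p * bar p * (p * p) := h2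
          _ = bar p * bar p * bar p * ((e * c) * (e * c)) := by rw [← h]
          _ = bar p * bar p * bar p * (e * (c * e) * c) := by simp only [mul_assoc]
          _ = _ := by rw [hce]; simp only [mul_assoc]
      · have h2 := bar_eq' hS p
        right; right
        refine ⟨bar p * bar p * bar p * p, ?_⟩
        calc bar p = bar p * bar p * bar p * (p * p) := h2
          _ = bar p * bar p * bar p * (p * (c * c)) := by
              nth_rewrite 5 [h]; rfl
          _ = _ := by simp only [mul_assoc]
      · have h2 := bar_eq' hS p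
        right; right
        refine ⟨bar p * bar p * bar p * p * t, ?_⟩
        calc bar p = bar p * bar p * bar p * (p * p) := h2
          _ = bar p * bar p * bar p * (p * (t * (c * c))) := by
              nth_rewrite 5 [h]; rfl
          _ = _ := by simp only [mul_assoc]
  · rintro p (_ | _ | _) (_ | _ | _) hp hq
    · rfl
    · exact absurd ((show p = e from hp).symm.trans hq) hec
    · exact absurd ((show p = e from hp) ▸ hq) hne
    · exact absurd ((show p = e from hq).symm.trans hp) hec
    · rfl
    · exact absurd ((show p = c from hp) ▸ hq) hnc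
    · exact absurd ((show p = e from hq) ▸ hp) hne
    · exact absurd ((show p = c from hq) ▸ hp) hnc
    · rfl
  · rintro (_ | _ | _)
    · exact ⟨e, rfl⟩
    · exact ⟨c, rfl⟩
    · exact ⟨c * c, Or.inr (Or.inl rfl)⟩

end Pool.Agent.H66.Epi
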