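import Pool.Agent.H66.Epi.Pairs

set_option linter.unusedVariables false
set_option linter.unusedSectionVars false
set_option linter.constructorNameAsVariable false

namespace Pool.Agent.H66.Epi

universe u

theorem L3 {S : Type u} [USg S] {n : ℕ} (hS : EpiEq S n) (hX : ¬ Models XC (Sat S)) (a b : S) :
    IdF (a * b) := by
  unfold Models Sat at hX
  push Not at hX
  obtain ⟨s, t, hst, φ, hne⟩ := hX
  by_cases h : ev φ s = .z
  · have h2 : ev φ t ≠ .z := by
      intro h2
      exact hne (h.trans h2.symm)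
    exact L3core hS (fun ψ => (hst ψ).symm) φ hne.symm h2 a b
  · exact L3core hS hst φ hne h a b

/-- assignments with prescribed first two values -/
def as2 {S : Type u} (a b : S) : ℕ → S := fun k => match k with
  | 0 => a
  | _ => b

abbrev v0 : Tm := .v 0
abbrev v1 : Tm := .v 1

theorem comm_of {S : Type u} [USg S] (h : Sat S (.m v0 v1) (.m v1 v0)) (a b : S) :
    a * b = b * a := h (as2 a b)

theorem sat_CC_comm : Sat CC (.m v0 v1) (.m v1 v0) := by
  intro φ; simp only [ev]; exact comm_CC _ _

theorem sat_CC_cube : Sat CC (.m v0 v0) (.m (.m v0 v0) v0) := by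
  intro φ; simp only [ev]; generalize φ 0 = a; cases a <;> rfl

theorem sat_CC_bar : Sat CC (.b v0) (.m v0 v0) := by
  intro φ; simp only [ev]; generalize φ 0 = a; cases a <;> rfl

theorem sat_QQ_cube : Sat QQ (.m v0 v0) (.m (.m v0 v0) v0) := by
  intro φ; simp only [ev]; generalize φ 0 = a; cases a <;> rfl

theorem sat_QQ_bar : Sat QQ (.b v0) (.m v0 v0) := by
  intro φ; simp only [ev]; generalize φ 0 = a; cases a <;> rfl

theorem sat_QQ_mul : Sat QQ (.m v0 v1) (.m v0 (.m v1 v1)) := by
  intro φ; simp only [ev]; generalize φ 0 = a; generalize φ 1 = b; cases a <;> cases b <;> rfl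

/-- the relation witnessing that `QQ` is in the variety generated by `CC × LZ` -/
def rQ : CC × LZ → Option QQ
  | (.i, .p) => some .e
  | (.c, .q) => some .a
  | (.c, .p) => some .z
  | (.z, _) => some .z
  | _ => none

theorem sat_QQ_of {s t : Tm} (h1 : Sat CC s t) (h2 : Sat LZ s t) : Sat QQ s t := by
  refine sat_of_rel (fun p b => rQ p = some b) ?_ ?_ ?_ ?_ (sat_prod h1 h2)
  · rintro ⟨p1, p2⟩ ⟨q1, q2⟩ x y
    cases p1 <;> cases p2 <;> cases q1 <;> cases q2 <;> cases x <;> cases y <;>
      first | (intro _ _; rfl) | (intro h _; exact absurd h (by decide)) |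
        (intro _ h; exact absurd h (by decide))
  · rintro ⟨p1, p2⟩ x
    cases p1 <;> cases p2 <;> cases x <;>
      first | (intro _; rfl) | (intro h; exact absurd h (by decide))
  · intro p x y hx hy
    rw [hx] at hy
    exact Option.some.inj hy
  · rintro (_ | _ | _)
    · exact ⟨(.i, .p), rfl⟩
    · exact ⟨(.c, .q), rfl⟩
    · exact ⟨(.z, .p), rfl⟩

theorem models_trans {S : Type u} [USg S] {A : Type*} [USg A] {E : Tm → Tm → Prop}
    (hS : Models S E) (h : Models A (Sat S)) : Models A E :=
  fun s t hst => h s t (hS s t hst)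

theorem pair1 {E : Tm → Tm → Prop} {n : ℕ} (h : CDT.{u} E n) (hC : ¬ Models CC E) :
    ¬ Models QQ E := by
  intro hQ
  have key := h.cd CC LZ QQ 1 0 epi_CC epi_LZ hQ (fun s t h1 h2 => sat_QQ_of h1 h2)
    (.m (.m v0 v1) v1) (.m (.m (.m v0 v0) v1) v1) ?_ ?_
  · have := key (as2 .a .e)
    exact absurd this (by decide)
  · intro S _ hS hS2 φ
    have hE := h.epi S hS
    have hCS : ¬ Models CC (Sat S) := fun h => hC (models_trans hS h)
    simp only [ev]
    generalize φ 0 = y
    generalize φ 1 = x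
    have comm := comm_of (hS2 _ _ sat_CC_comm)
    have cube : ∀ x : S, x * x = x * x * x := fun x => hS2 _ _ sat_CC_cube (fun _ => x)
    have hbar : ∀ x : S, bar x = x * x := fun x => hS2 _ _ sat_CC_bar (fun _ => x)
    have hid : ∀ x : S, (x * x) * (x * x) = x * x := by
      intro x
      rw [← mul_assoc, ← cube, ← cube]
    have hg := L1 hE hCS (hid x) y
    have hg2 : (x * x) * y * (x * x) = y * x * x := by
      rw [comm (x * x) y, mul_assoc, hid, mul_assoc]
    rw [hg2] at hg
    unfold Gp at hg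
    rw [hbar, hid] at hg
    calc y * x * x = y * x * x * (y * x * x) := hg.symm
      _ = y * ((x * x) * y) * (x * x) := by simp only [mul_assoc]
      _ = y * (y * (x * x)) * (x * x) := by rw [comm (x * x) y]
      _ = y * y * ((x * x) * (x * x)) := by simp only [mul_assoc]
      _ = _ := by rw [hid]; simp only [mul_assoc]
  · intro S _ hS hS2 φ
    have hl : ∀ a b : S, a * b = a := fun a b =>
      hS2 (.m v0 v1) v0 (fun φ => rfl) (as2 a b)
    simp only [ev, hl]

theorem pair1' {E : Tm → Tm → Prop} {n : ℕ} (h : CDT.{u} E n) (hC : ¬ Models CC E) :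
    ¬ Models QQᵐᵒᵖ E := by
  intro hQ
  refine pair1 h.op (fun h => hC (models_CC_op h)) ?_
  intro s t hst
  have := hQ _ _ hst
  rwa [sat_op, rev_rev, rev_rev] at this

/-- a relation from `(QQ × QQᵐᵒᵖ)²` to `XC` -/
def rX (z : (QQ × QQᵐᵒᵖ) × (QQ × QQᵐᵒᵖ)) : XC → Prop
  | .x => z = ((.e, MulOpposite.op .a), (.a, MulOpposite.op .e))
  | .y => z = ((.a, MulOpposite.op .e), (.e, MulOpposite.op .a))
  | .m => z = ((.a, MulOpposite.op .a), (.z, MulOpposite.op .z)) ∨
      z = ((.z, MulOpposite.op .z), (.a, MulOpposite.op .a))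
  | .z => (z.1.1 = .z ∨ z.1.2 = MulOpposite.op .z) ∧ (z.2.1 = .z ∨ z.2.2 = MulOpposite.op .z)

theorem qz_mul (a : QQ) : QQ.z * a = .z := by cases a <;> rfl
theorem mul_qz (a : QQ) : a * QQ.z = .z := by cases a <;> rfl
theorem qz_mul' (a : QQᵐᵒᵖ) : MulOpposite.op QQ.z * a = MulOpposite.op .z := by
  obtain ⟨a, rfl⟩ := MulOpposite.op_surjective a
  rw [← MulOpposite.op_mul, mul_qz]
theorem mul_qz' (a : QQᵐᵒᵖ) : a * MulOpposite.op QQ.z = MulOpposite.op .z := by
  obtain ⟨a, rfl⟩ := MulOpposite.op_surjective a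
  rw [← MulOpposite.op_mul, qz_mul]

theorem rX_right (p q) (h : rX p .z) : rX (p * q) .z := by
  obtain ⟨⟨a, b⟩, ⟨c, d⟩⟩ := p
  obtain ⟨⟨a', b'⟩, ⟨c', d'⟩⟩ := q
  obtain ⟨h1, h2⟩ := h
  refine ⟨?_, ?_⟩
  · rcases h1 with h | h
    · left; dsimp only at h; subst h; exact qz_mul _
    · right; dsimp only at h; subst h; exact qz_mul' _
  · rcases h2 with h | h
    · left; dsimp only at h; subst h; exact qz_mul _
    · right; dsimp only at h; subst h; exact qz_mul' _

theorem rX_left (p q) (h : rX q .z) : rX (p * q) .z := by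
  obtain ⟨⟨a, b⟩, ⟨c, d⟩⟩ := p
  obtain ⟨⟨a', b'⟩, ⟨c', d'⟩⟩ := q
  obtain ⟨h1, h2⟩ := h
  refine ⟨?_, ?_⟩
  · rcases h1 with h | h
    · left; dsimp only at h; subst h; exact mul_qz _
    · right; dsimp only at h; subst h; exact mul_qz' _
  · rcases h2 with h | h
    · left; dsimp only at h; subst h; exact mul_qz _
    · right; dsimp only at h; subst h; exact mul_qz' _

theorem sat_XC_of {s t : Tm} (h1 : Sat QQ s t) (h2 : Sat QQᵐᵒᵖ s t) : Sat XC s t := by
  refine sat_of_rel rX ?_ ?_ ?_ ?_ (sat_prod (sat_prod h1 h2) (sat_prod h1 h2))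
  · rintro p q (_ | _ | _ | _) (_ | _ | _ | _) hp hq
    · rw [show p = _ from hp, show q = _ from hq]; exact ⟨Or.inr rfl, Or.inl rfl⟩
    · rw [show p = _ from hp, show q = _ from hq]; exact Or.inr rfl
    · rw [show p = _ from hp]
      rcases hq with rfl | rfl
      · exact ⟨Or.inl rfl, Or.inl rfl⟩
      · exact ⟨Or.inl rfl, Or.inl rfl⟩
    · exact rX_left _ _ hq
    · rw [show p = _ from hp, show q = _ from hq]; exact Or.inl rfl
    · rw [show p = _ from hp, show q = _ from hq]; exact ⟨Or.inl rfl, Or.inr rfl⟩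
    · rw [show p = _ from hp]
      rcases hq with rfl | rfl
      · exact ⟨Or.inl rfl, Or.inl rfl⟩
      · exact ⟨Or.inl rfl, Or.inl rfl⟩
    · exact rX_left _ _ hq
    · rw [show q = _ from hq]
      rcases hp with rfl | rfl
      · exact ⟨Or.inr rfl, Or.inl rfl⟩
      · exact ⟨Or.inl rfl, Or.inl rfl⟩
    · rw [show q = _ from hq]
      rcases hp with rfl | rfl
      · exact ⟨Or.inl rfl, Or.inl rfl⟩
      · exact ⟨Or.inl rfl, Or.inr rfl⟩
    · rcases hp with rfl | rfl <;> rcases hq with rfl | rfl
      · exact ⟨Or.inl rfl, Or.inl rfl⟩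
      · exact ⟨Or.inl rfl, Or.inl rfl⟩
      · exact ⟨Or.inl rfl, Or.inl rfl⟩
      · exact ⟨Or.inl rfl, Or.inl rfl⟩
    · exact rX_left _ _ hq
    · exact rX_right _ _ hp
    · exact rX_right _ _ hp
    · exact rX_right _ _ hp
    · exact rX_right _ _ hp
  · rintro p (_ | _ | _ | _) hp
    · rw [show p = _ from hp]; exact ⟨Or.inr rfl, Or.inl rfl⟩
    · rw [show p = _ from hp]; exact ⟨Or.inl rfl, Or.inr rfl⟩
    · rcases hp with rfl | rfl
      · exact ⟨Or.inl rfl, Or.inl rfl⟩
      · exact ⟨Or.inl rfl, Or.inl rfl⟩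
    · obtain ⟨⟨a, b⟩, ⟨c, d⟩⟩ := p
      obtain ⟨h1, h2⟩ := hp
      refine ⟨?_, ?_⟩
      · rcases h1 with h | h
        · left; dsimp only at h; subst h; rfl
        · right; dsimp only at h; subst h; rfl
      · rcases h2 with h | h
        · left; dsimp only at h; subst h; rfl
        · right; dsimp only at h; subst h; rfl
  · have f1 : (QQ.e ≠ QQ.a) := by decide
    have f2 : (QQ.e ≠ QQ.z) := by decide
    have f3 : (QQ.a ≠ QQ.z) := by decide
    have g3 : (MulOpposite.op QQ.a ≠ MulOpposite.op QQ.z) := by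
      intro h; exact f3 (MulOpposite.op_injective h)
    have g2 : (MulOpposite.op QQ.e ≠ MulOpposite.op QQ.z) := by
      intro h; exact f2 (MulOpposite.op_injective h)
    rintro p (_ | _ | _ | _) (_ | _ | _ | _) hp hq <;> first | rfl | skip
    · rw [show p = _ from hp] at hq
      exact absurd (congrArg (fun z => z.1.1) hq) f1
    · rw [show p = _ from hp] at hq
      rcases hq with hq | hq
      · exact absurd (congrArg (fun z => z.1.1) hq) f1
      · exact absurd (congrArg (fun z => z.1.1) hq) f2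
    · rw [show p = _ from hp] at hq
      rcases hq.1 with h | h
      · exact absurd h f2
      · exact absurd h g3
    · rw [show p = _ from hp] at hq
      exact absurd (congrArg (fun z => z.1.1) hq) f1.symm
    · rw [show p = _ from hp] at hq
      rcases hq with hq | hq
      · exact absurd (congrArg (fun z => z.2.1) hq) f2
      · exact absurd (congrArg (fun z => z.1.1) hq) f3
    · rw [show p = _ from hp] at hq
      rcases hq.1 with h | h
      · exact absurd h f3
      · exact absurd h g2
    · rw [show p = _ from hq] at hp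
      rcases hp with hq | hq
      · exact absurd (congrArg (fun z => z.1.1) hq) f1
      · exact absurd (congrArg (fun z => z.1.1) hq) f2
    · rw [show p = _ from hq] at hp
      rcases hp with hq | hq
      · exact absurd (congrArg (fun z => z.2.1) hq) f2
      · exact absurd (congrArg (fun z => z.1.1) hq) f3
    · rcases hp with rfl | rfl
      · rcases hq.1 with h | h
        · exact absurd h f3
        · exact absurd h g3
      · rcases hq.2 with h | h
        · exact absurd h f3
        · exact absurd h g3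
    · rw [show p = _ from hq] at hp
      rcases hp.1 with h | h
      · exact absurd h f2
      · exact absurd h g3
    · rw [show p = _ from hq] at hp
      rcases hp.1 with h | h
      · exact absurd h f3
      · exact absurd h g2
    · rcases hq with rfl | rfl
      · rcases hp.1 with h | h
        · exact absurd h f3
        · exact absurd h g3
      · rcases hp.2 with h | h
        · exact absurd h f3
        · exact absurd h g3
  · rintro (_ | _ | _ | _)
    · exact ⟨_, rfl⟩
    · exact ⟨_, rfl⟩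
    · exact ⟨_, Or.inl rfl⟩
    · exact ⟨((.z, MulOpposite.op .z), (.z, MulOpposite.op .z)), Or.inl rfl, Or.inl rfl⟩

theorem opfact {S : Type u} [USg S] (hS : Models S (Sat QQᵐᵒᵖ)) {s t : Tm} (h : Sat QQ s t) :
    Sat S (rev s) (rev t) := by
  apply hS
  rw [sat_op, rev_rev, rev_rev]
  exact h

theorem pair2 {E : Tm → Tm → Prop} {n : ℕ} (h : CDT.{u} E n) (hC : ¬ Models CC E) :
    ¬ Models XC E := by
  intro hX
  have hQ := pair1 h hC
  have hQ' := pair1' h hC
  have key := h.cd QQ QQᵐᵒᵖ XC 1 1 epi_QQ (epiEq_op epi_QQ) hX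
    (fun s t h1 h2 => sat_XC_of h1 h2) (.m v0 v1) (.m (.m v0 v1) (.m v0 v1)) ?_ ?_
  · have := key (as2 .x .y)
    exact absurd this (by decide)
  · intro S _ hS hS2 φ
    have hE := h.epi S hS
    have hCS : ¬ Models CC (Sat S) := fun h => hC (models_trans hS h)
    have hQS : ¬ Models QQ (Sat S) := fun h => hQ (models_trans hS h)
    simp only [ev]
    generalize φ 0 = x
    generalize φ 1 = y
    have cube : ∀ x : S, x * x = x * x * x := fun x => hS2 _ _ sat_QQ_cube (fun _ => x)
    have hbar : ∀ x : S, bar x = x * x := fun x => hS2 _ _ sat_QQ_bar (fun _ => x)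
    have hid : ∀ x : S, (x * x) * (x * x) = x * x := by
      intro x
      rw [← mul_assoc, ← cube, ← cube]
    have hm : x * y = x * (y * y) := hS2 _ _ sat_QQ_mul (as2 x y)
    have hg := L2 hE hCS hQS (hid y) x
    rw [← hm] at hg
    unfold Gp at hg
    rw [hbar, hid] at hg
    exact hg.symm
  · intro S _ hS hS2 φ
    have hE := h.epi S hS
    have hCS : ¬ Models CC (Sat S) := fun h => hC (models_trans hS h)
    have hQS : ¬ Models QQᵐᵒᵖ (Sat S) := fun h => hQ' (models_trans hS h)
    simp only [ev]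
    generalize φ 0 = x
    generalize φ 1 = y
    have cube : ∀ x : S, x * x = x * (x * x) := fun x => opfact hS2 sat_QQ_cube (fun _ => x)
    have hbar : ∀ x : S, bar x = x * x := fun x => opfact hS2 sat_QQ_bar (fun _ => x)
    have hid : ∀ x : S, (x * x) * (x * x) = x * x := by
      intro x
      rw [mul_assoc, ← cube, ← cube]
    have hm : x * y = (x * x) * y := opfact hS2 sat_QQ_mul (as2 y x)
    have hg := L2' hE hCS hQS (hid x) y
    rw [← hm] at hg
    unfold Gp at hg
    rw [hbar, hid] at hg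
    exact hg.symm

/-- a relation from `CC × CC` to `XC` -/
def rC (z : CC × CC) : XC → Prop
  | .x => z = (.c, .i)
  | .y => z = (.i, .c)
  | .m => z = (.c, .c)
  | .z => z.1 = .z ∨ z.2 = .z

instance : ∀ (z : CC × CC) (b : XC), Decidable (rC z b) := fun z b =>
  match b with
  | .x => inferInstanceAs (Decidable (z = (.c, .i)))
  | .y => inferInstanceAs (Decidable (z = (.i, .c)))
  | .m => inferInstanceAs (Decidable (z = (.c, .c)))
  | .z => inferInstanceAs (Decidable (z.1 = .z ∨ z.2 = .z))

theorem sat_XC_of_CC {s t : Tm} (h1 : Sat CC s t) : Sat XC s t := by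
  refine sat_of_rel rC ?_ ?_ ?_ ?_ (sat_prod h1 h1)
  · rintro ⟨p1, p2⟩ ⟨q1, q2⟩ x y
    cases p1 <;> cases p2 <;> cases q1 <;> cases q2 <;> cases x <;> cases y <;> decide
  · rintro ⟨p1, p2⟩ x
    cases p1 <;> cases p2 <;> cases x <;> decide
  · rintro ⟨p1, p2⟩ x y
    cases p1 <;> cases p2 <;> cases x <;> cases y <;> decide
  · rintro (_ | _ | _ | _)
    · exact ⟨_, rfl⟩
    · exact ⟨_, rfl⟩
    · exact ⟨_, rfl⟩
    · exact ⟨(.z, .z), Or.inl rfl⟩

theorem pair3 {E : Tm → Tm → Prop} {n : ℕ} (h : CDT.{u} E n) (hC : Models CC E) :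
    ¬ E (.m v0 v1) (.m v1 v0) := by
  intro hcomm
  have hX : Models XC E := fun s t hst => sat_XC_of_CC (hC s t hst)
  have key := h.cd QQ QQᵐᵒᵖ XC 1 1 epi_QQ (epiEq_op epi_QQ) hX
    (fun s t h1 h2 => sat_XC_of h1 h2) (.m v0 v1) (.m (.m v0 v1) (.m v0 v1)) ?_ ?_
  · have := key (as2 .x .y)
    exact absurd this (by decide)
  · intro S _ hS hS2 φ
    simp only [ev]
    generalize φ 0 = x
    generalize φ 1 = y
    have comm := comm_of (hS _ _ hcomm)
    have hm : ∀ x y : S, x * y = x * (y * y) := fun x y => hS2 _ _ sat_QQ_mul (as2 x y)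
    calc x * y = x * (y * y) := hm x y
      _ = (y * y) * x := comm _ _
      _ = (y * y) * (x * x) := hm _ _
      _ = y * (y * x) * x := by simp only [mul_assoc]
      _ = y * (x * y) * x := by rw [comm y x]
      _ = (y * x) * (y * x) := by simp only [mul_assoc]
      _ = _ := by rw [comm y x]
  · intro S _ hS hS2 φ
    simp only [ev]
    generalize φ 0 = x
    generalize φ 1 = y
    have comm := comm_of (hS _ _ hcomm)
    have hm : ∀ x y : S, x * y = (x * x) * y := fun x y => opfact hS2 sat_QQ_mul (as2 y x)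
    calc x * y = (x * x) * y := hm x y
      _ = y * (x * x) := comm _ _
      _ = (y * y) * (x * x) := hm _ _
      _ = y * (y * x) * x := by simp only [mul_assoc]
      _ = y * (x * y) * x := by rw [comm y x]
      _ = (y * x) * (y * x) := by simp only [mul_assoc]
      _ = _ := by rw [comm y x]

/-- If `CC` is not in the codistributive variety, all products are group elements. -/
theorem stepA {E : Tm → Tm → Prop} {n : ℕ} (h : CDT.{u} E n) (hC : ¬ Models CC E)
    (S : Type u) [USg S] (hS : Models S E) (a b : S) : Gp (a * b) := by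
  have hE := h.epi S hS
  have hCS : ¬ Models CC (Sat S) := fun h => hC (models_trans hS h)
  have hQS : ¬ Models QQ (Sat S) := fun h' => pair1 h hC (models_trans hS h')
  have hQS' : ¬ Models QQᵐᵒᵖ (Sat S) := fun h' => pair1' h hC (models_trans hS h')
  have hXS : ¬ Models XC (Sat S) := fun h' => pair2 h hC (models_trans hS h')
  exact gp_of_idF hE (fun e y he => L2' hE hCS hQS' he y) (fun e y he => L2 hE hCS hQS he y)
    (L3 hE hXS a b)

end Pool.Agent.H66.Epi
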