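import Pool.Agent.H66.Epi.Defs

set_option linter.unusedVariables false

namespace Pool.Agent.H66.Epi

universe u

/-- `S` is a model of the identities in `E`. -/
def Models (S : Type u) [USg S] (E : Tm → Tm → Prop) : Prop := ∀ s t, E s t → Sat S s t

/-- substitution -/
def sb (σ : ℕ → Tm) : Tm → Tm
  | .v i => σ i
  | .m s t => .m (sb σ s) (sb σ t)
  | .b t => .b (sb σ t)

theorem ev_sb {S : Type u} [USg S] (φ : ℕ → S) (σ : ℕ → Tm) (t : Tm) :
    ev φ (sb σ t) = ev (fun i => ev φ (σ i)) t := by
  induction t with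
  | v i => rfl
  | m s t hs ht => simp only [sb, ev, hs, ht]
  | b t ht => simp only [sb, ev, ht]

/-- closure properties of equational theories of unary semigroups -/
structure IsThy (E : Tm → Tm → Prop) : Prop where
  refl : ∀ s, E s s
  symm : ∀ s t, E s t → E t s
  trans : ∀ s t r, E s t → E t r → E s r
  subst : ∀ σ s t, E s t → E (sb σ s) (sb σ t)
  mul : ∀ s t s' t', E s t → E s' t' → E (.m s s') (.m t t')
  bar : ∀ s t, E s t → E (.b s) (.b t)
  assoc : ∀ a b c, E (.m (.m a b) c) (.m a (.m b c))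

theorem isThy_sat (S : Type u) [USg S] : IsThy (Sat S) where
  refl s φ := rfl
  symm s t h φ := (h φ).symm
  trans s t r h1 h2 φ := (h1 φ).trans (h2 φ)
  subst σ s t h φ := by rw [ev_sb, ev_sb]; exact h _
  mul s t s' t' h1 h2 φ := by simp only [ev]; rw [h1 φ, h2 φ]
  bar s t h φ := by simp only [ev]; rw [h φ]
  assoc a b c φ := by simp only [ev, mul_assoc]

theorem IsThy.inf {E F : Tm → Tm → Prop} (hE : IsThy E) (hF : IsThy F) :
    IsThy (fun s t => E s t ∧ F s t) where
  refl s := ⟨hE.refl s, hF.refl s⟩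
  symm s t h := ⟨hE.symm _ _ h.1, hF.symm _ _ h.2⟩
  trans s t r h1 h2 := ⟨hE.trans _ _ _ h1.1 h2.1, hF.trans _ _ _ h1.2 h2.2⟩
  subst σ s t h := ⟨hE.subst _ _ _ h.1, hF.subst _ _ _ h.2⟩
  mul s t s' t' h1 h2 := ⟨hE.mul _ _ _ _ h1.1 h2.1, hF.mul _ _ _ _ h1.2 h2.2⟩
  bar s t h := ⟨hE.bar _ _ h.1, hF.bar _ _ h.2⟩
  assoc a b c := ⟨hE.assoc _ _ _, hF.assoc _ _ _⟩

/-- reversed term -/
def rev : Tm → Tm
  | .v i => .v i
  | .m s t => .m (rev t) (rev s)
  | .b t => .b (rev t)

@[simp] theorem rev_rev (t : Tm) : rev (rev t) = t := by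
  induction t with
  | v i => rfl
  | m s t hs ht => simp only [rev, hs, ht]
  | b t ht => simp only [rev, ht]

/-- The opposite unary semigroup. -/
instance opUSg {S : Type*} [USg S] : USg Sᵐᵒᵖ where
  bar x := MulOpposite.op (bar x.unop)

theorem ev_op {S : Type u} [USg S] (φ : ℕ → S) (t : Tm) :
    ev (fun i => MulOpposite.op (φ i)) t = MulOpposite.op (ev φ (rev t)) := by
  induction t with
  | v i => rfl
  | m s t hs ht => simp only [rev, ev, hs, ht, MulOpposite.op_mul]
  | b t ht => simp only [rev, ev, ht]; rfl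

theorem sat_op {S : Type u} [USg S] (s t : Tm) : Sat Sᵐᵒᵖ s t ↔ Sat S (rev s) (rev t) := by
  constructor
  · intro h φ
    have := h (fun i => MulOpposite.op (φ i))
    rw [ev_op, ev_op] at this
    exact MulOpposite.op_injective this
  · intro h φ
    have := h (fun i => (φ i).unop)
    have h2 := ev_op (fun i => (φ i).unop) s
    have h3 := ev_op (fun i => (φ i).unop) t
    simp only [MulOpposite.op_unop] at h2 h3
    rw [h2, h3, this]

/-- the opposite theory -/
def opE (E : Tm → Tm → Prop) : Tm → Tm → Prop := fun s t => E (rev s) (rev t)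

theorem models_op {S : Type u} [USg S] {E : Tm → Tm → Prop} (h : Models S E) :
    Models Sᵐᵒᵖ (opE E) := by
  intro s t hst
  rw [sat_op]
  exact h _ _ hst

theorem models_op' {S : Type u} [USg S] {E : Tm → Tm → Prop} (h : Models S (opE E)) :
    Models Sᵐᵒᵖ E := by
  intro s t hst
  rw [sat_op]
  apply h
  simpa only [opE, rev_rev] using hst

theorem opE_opE (E : Tm → Tm → Prop) : opE (opE E) = E := by
  funext s t
  simp only [opE, rev_rev]

theorem pw_op {S : Type u} [USg S] (x : S) (n : ℕ) :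
    pw (MulOpposite.op x) n = MulOpposite.op (pw x n) := by
  induction n with
  | zero => rfl
  | succ n ih => simp only [pw, ih]; rw [← MulOpposite.op_mul, pw_comm]

theorem epiEq_op {S : Type u} [USg S] {n : ℕ} (h : EpiEq S n) : EpiEq Sᵐᵒᵖ n := by
  intro x
  obtain ⟨y, rfl⟩ := MulOpposite.op_surjective x
  obtain ⟨h1, h2, h3⟩ := h y
  have hb : bar (MulOpposite.op y) = MulOpposite.op (bar y) := rfl
  rw [hb, pw_op]
  simp only [← MulOpposite.op_mul]
  have hc : y * (y * bar y) = (y * bar y) * y := by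
    rw [mul_assoc, ← h1]
  refine ⟨congrArg _ h1.symm, congrArg _ ?_, congrArg _ ?_⟩
  · rw [← mul_assoc, h2]
  · rw [← mul_assoc, ← h1, ← pw_comm' hc n, ← mul_assoc, h3]

theorem isThy_op {E : Tm → Tm → Prop} (h : IsThy E) : IsThy (opE E) where
  refl s := h.refl _
  symm s t hst := h.symm _ _ hst
  trans s t r h1 h2 := h.trans _ _ _ h1 h2
  subst σ s t hst := by
    have key : ∀ r : Tm, rev (sb σ r) = sb (fun i => rev (σ i)) (rev r) := by
      intro r
      induction r with
      | v i => rfl
      | m s t hs ht => simp only [rev, sb, hs, ht]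
      | b t ht => simp only [rev, sb, ht]
    simp only [opE, key]
    exact h.subst _ _ _ hst
  mul s t s' t' h1 h2 := by
    simp only [opE, rev] at *
    exact h.mul _ _ _ _ h2 h1
  bar s t h1 := by
    simp only [opE, rev] at *
    exact h.bar _ _ h1
  assoc a b c := by
    simp only [opE, rev]
    exact h.symm _ _ (h.assoc _ _ _)

/-- The three identities of epigroups of index at most `n + 1` are in the theory. -/
def EpiThy (E : Tm → Tm → Prop) (n : ℕ) : Prop :=
    E (.m (.v 0) (.b (.v 0))) (.m (.b (.v 0)) (.v 0)) ∧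
    E (.m (.m (.b (.v 0)) (.v 0)) (.b (.v 0))) (.b (.v 0)) ∧
    E (.m (.m (tpw n) (.v 0)) (.b (.v 0))) (tpw n)

theorem EpiThy.epiEq {E : Tm → Tm → Prop} {n : ℕ} (h : EpiThy E n) {S : Type u} [USg S]
    (hS : Models S E) : EpiEq S n :=
  (epiEq_iff n).2 ⟨hS _ _ h.1, hS _ _ h.2.1, hS _ _ h.2.2⟩

/-- The codistributivity property of the equational theory `E` of an epigroup variety. -/
structure CDT (E : Tm → Tm → Prop) (n : ℕ) : Prop where
  thy : IsThy E
  epi : ∀ (S : Type u) [USg S], Models S E → EpiEq S n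
  cd : ∀ (A₁ A₂ B : Type) [USg A₁] [USg A₂] [USg B] (n₁ n₂ : ℕ), EpiEq A₁ n₁ → EpiEq A₂ n₂ →
    Models B E → (∀ s t, Sat A₁ s t → Sat A₂ s t → Sat B s t) → ∀ s t,
    (∀ (S : Type u) [USg S], Models S E → Models S (Sat A₁) → Sat S s t) →
    (∀ (S : Type u) [USg S], Models S E → Models S (Sat A₂) → Sat S s t) → Sat B s t

theorem CDT.op {E : Tm → Tm → Prop} {n : ℕ} (h : CDT.{u} E n) : CDT.{u} (opE E) n where
  thy := isThy_op h.thy
  epi S _ hS := by
    have := epiEq_op (h.epi Sᵐᵒᵖ (models_op' hS))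
    have h2 := (epiEq_iff n).1 this
    rw [sat_op, sat_op, sat_op, sat_op, sat_op, sat_op] at h2
    simp only [rev_rev] at h2
    exact (epiEq_iff n).2 h2
  cd A₁ A₂ B _ _ _ n₁ n₂ h1 h2 hB hAB s t hs1 hs2 := by
    have key := h.cd A₁ᵐᵒᵖ A₂ᵐᵒᵖ Bᵐᵒᵖ n₁ n₂ (epiEq_op h1) (epiEq_op h2) (models_op' hB) (by
      intro s t h1 h2
      rw [sat_op] at *
      exact hAB _ _ h1 h2) (rev s) (rev t) (by
      intro S _ hS1 hS2
      have := hs1 Sᵐᵒᵖ (models_op hS1) (by
        intro s t hst
        rw [sat_op]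
        apply hS2
        rw [sat_op, rev_rev, rev_rev]
        exact hst)
      rwa [sat_op] at this) (by
      intro S _ hS1 hS2
      have := hs2 Sᵐᵒᵖ (models_op hS1) (by
        intro s t hst
        rw [sat_op]
        apply hS2
        rw [sat_op, rev_rev, rev_rev]
        exact hst)
      rwa [sat_op] at this)
    rw [sat_op, rev_rev, rev_rev] at key
    exact key

instance uliftUSg {A : Type*} [USg A] : USg (ULift.{u} A) where
  bar x := ULift.up (bar x.down)

theorem ev_ulift {A : Type*} [USg A] (φ : ℕ → A) (t : Tm) :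
    ev (fun i => (ULift.up.{u} (φ i))) t = ULift.up (ev φ t) := by
  induction t with
  | v i => rfl
  | m s t hs ht => simp only [ev, hs, ht]; rfl
  | b t ht => simp only [ev, ht]; rfl

theorem sat_ulift {A : Type*} [USg A] (s t : Tm) : Sat (ULift.{u} A) s t ↔ Sat A s t := by
  constructor
  · intro h φ
    have := h (fun i => ULift.up (φ i))
    rw [ev_ulift, ev_ulift] at this
    exact ULift.up_injective this
  · intro h φ
    have := h (fun i => (φ i).down)
    have h2 := ev_ulift.{u} (fun i => (φ i).down) s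
    have h3 := ev_ulift.{u} (fun i => (φ i).down) t
    simp only [ULift.up_down] at h2 h3
    rw [h2, h3, this]

/-- The epigroup variety generated by an algebra. -/
def varA (A : Type) [USg A] {n : ℕ} (h : EpiEq A n) : EVar.{u} where
  mem S _ := Models S (Sat A)
  eqn := by
    refine ⟨{p | Sat A p.1 p.2}, fun S _ => ?_⟩
    constructor
    · intro h p hp
      exact h _ _ hp
    · intro h s t hst
      exact h (s, t) hst
  epi S _ hS := by
    apply isEpigroup_of_epiEq (n := n)
    obtain ⟨h1, h2, h3⟩ := (epiEq_iff n).1 h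
    exact (epiEq_iff n).2 ⟨hS _ _ h1, hS _ _ h2, hS _ _ h3⟩

/-- the equational theory of an epigroup variety -/
def EVar.thy (V : EVar.{u}) : Tm → Tm → Prop :=
  fun s t => ∀ (S : Type u) [USg S], V.mem S → Sat S s t

theorem EVar.mem_iff (V : EVar.{u}) (S : Type u) [USg S] : V.mem S ↔ Models S V.thy := by
  constructor
  · intro h s t hst
    exact hst S h
  · intro h
    obtain ⟨E, hE⟩ := V.eqn
    rw [hE]
    intro p hp
    apply h
    intro T _ hT
    exact (hE T).1 hT p hp

theorem cdt_of_codistributive {V : EVar.{u}} (hV : Codistributive V) :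
    ∃ n, CDT.{u} V.thy n := by
  obtain ⟨n, hn⟩ := V.exists_index
  refine ⟨n, ?_, ?_, ?_⟩
  · exact
    { refl := fun s S _ _ φ => rfl
      symm := fun s t h S _ hS => (isThy_sat S).symm _ _ (h S hS)
      trans := fun s t r h1 h2 S _ hS => (isThy_sat S).trans _ _ _ (h1 S hS) (h2 S hS)
      subst := fun σ s t h S _ hS => (isThy_sat S).subst _ _ _ (h S hS)
      mul := fun s t s' t' h1 h2 S _ hS => (isThy_sat S).mul _ _ _ _ (h1 S hS) (h2 S hS)
      bar := fun s t h S _ hS => (isThy_sat S).bar _ _ (h S hS)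
      assoc := fun a b c S _ _ => (isThy_sat S).assoc _ _ _ }
  · intro S _ hS
    exact hn S ((V.mem_iff S).2 hS)
  · intro A₁ A₂ B _ _ _ n₁ n₂ h1 h2 hB hAB s t hs1 hs2
    have key := hV (varA A₁ h1) (varA A₂ h2)
    have hmem : (V ⊓ (varA A₁ h1 ⊔ varA A₂ h2)).mem (ULift.{u} B) := by
      refine ⟨?_, ?_⟩
      · rw [EVar.mem_iff]
        intro s t hst
        rw [sat_ulift]
        exact hB s t hst
      · intro s t h3 h4
        rw [sat_ulift]
        apply hAB
        · have := h3 (ULift.{u} A₁) (by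
            intro s t hst
            rw [sat_ulift]
            exact hst)
          rwa [sat_ulift] at this
        · have := h4 (ULift.{u} A₂) (by
            intro s t hst
            rw [sat_ulift]
            exact hst)
          rwa [sat_ulift] at this
    rw [key] at hmem
    have := hmem s t (by
      intro T _ hT
      exact hs1 T ((V.mem_iff T).1 hT.1) hT.2) (by
      intro T _ hT
      exact hs2 T ((V.mem_iff T).1 hT.1) hT.2)
    rwa [sat_ulift] at this

/-- Transfer of identities along a relation. -/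
theorem sat_of_rel {P : Type*} {B : Type*} [USg P] [USg B] (R : P → B → Prop)
    (hm : ∀ p q x y, R p x → R q y → R (p * q) (x * y)) (hb : ∀ p x, R p x → R (bar p) (bar x))
    (hf : ∀ p x y, R p x → R p y → x = y) (hs : ∀ x, ∃ p, R p x) {s t : Tm}
    (h : Sat P s t) : Sat B s t := by
  intro φ
  choose ψ hψ using fun i => hs (φ i)
  have key : ∀ r : Tm, R (ev ψ r) (ev φ r) := by
    intro r
    induction r with
    | v i => exact hψ i
    | m s t hs ht => exact hm _ _ _ _ hs ht
    | b t ht => exact hb _ _ ht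
  have h1 := key s
  rw [h ψ] at h1
  exact hf _ _ _ h1 (key t)

/-- products of two unary semigroups -/
instance prodUSg {A B : Type*} [USg A] [USg B] : USg (A × B) where
  bar x := (bar x.1, bar x.2)

theorem ev_prod {A B : Type*} [USg A] [USg B] (φ : ℕ → A × B) (t : Tm) :
    ev φ t = (ev (fun i => (φ i).1) t, ev (fun i => (φ i).2) t) := by
  induction t with
  | v i => rfl
  | m s t hs ht => simp only [ev, hs, ht]; rfl
  | b t ht => simp only [ev, ht]; rfl

theorem sat_prod {A B : Type*} [USg A] [USg B] {s t : Tm} (h1 : Sat A s t) (h2 : Sat B s t) :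
    Sat (A × B) s t := by
  intro φ
  rw [ev_prod, ev_prod, h1, h2]

end Pool.Agent.H66.Epi
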