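import Pool.Agent.H66.Epi.StepA

set_option linter.unusedVariables false
set_option linter.unusedSectionVars false
set_option linter.constructorNameAsVariable false

namespace Pool.Agent.H66.Epi

universe u

/-- flattening of a term, bars replaced by `N`-fold repetition -/
def flatN (N : ℕ) : Tm → List ℕ
  | .v i => [i]
  | .m s t => flatN N s ++ flatN N t
  | .b t => (List.replicate N (flatN N t)).flatten

theorem flatN_ne_nil {N : ℕ} (hN : 1 ≤ N) (t : Tm) : flatN N t ≠ [] := by
  induction t with
  | v i => simp [flatN]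
  | m s t hs ht => simp [flatN, hs]
  | b t ht =>
    obtain ⟨k, rfl⟩ : ∃ k, N = k + 1 := ⟨N - 1, by omega⟩
    simp [flatN, List.replicate_succ, ht]

theorem flatN_of_fl {N : ℕ} {t : Tm} {l : List ℕ} (h : fl t = some l) : flatN N t = l := by
  induction t generalizing l with
  | v i => simp only [fl, Option.some.injEq] at h; subst h; rfl
  | m s t hs ht =>
    obtain ⟨a, b, ha, hb, rfl⟩ := fl_m h
    simp only [flatN, hs ha, ht hb]
  | b t ht => simp [fl] at h

theorem count_flatten_replicate (N v : ℕ) (l : List ℕ) :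
    (List.replicate N l).flatten.count v = N * l.count v := by
  induction N with
  | zero => simp
  | succ N ih => simp [List.replicate_succ, List.count_append, ih]; ring

theorem exists_count_of_fl_none {N : ℕ} (hN : 1 ≤ N) {t : Tm} (h : fl t = none) :
    ∃ v, N ≤ (flatN N t).count v := by
  induction t with
  | v i => simp [fl] at h
  | m s t hs ht =>
    by_cases h1 : fl s = none
    · obtain ⟨v, hv⟩ := hs h1
      exact ⟨v, by simp only [flatN, List.count_append]; omega⟩
    · by_cases h2 : fl t = none
      · obtain ⟨v, hv⟩ := ht h2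
        exact ⟨v, by simp only [flatN, List.count_append]; omega⟩
      · exfalso
        obtain ⟨a, ha⟩ := Option.ne_none_iff_exists'.1 h1
        obtain ⟨b, hb⟩ := Option.ne_none_iff_exists'.1 h2
        simp [fl, ha, hb] at h
  | b t ht =>
    obtain ⟨v, hv⟩ := List.exists_mem_of_ne_nil _ (flatN_ne_nil hN t)
    refine ⟨v, ?_⟩
    have := List.count_pos_iff.2 hv
    simp only [flatN, count_flatten_replicate]
    exact Nat.le_mul_of_pos_right N this

/-- the term of a word -/
def wd : List ℕ → Tm
  | [] => .v 0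
  | [i] => .v i
  | i :: j :: l => .m (.v i) (wd (j :: l))

theorem fl_wd {l : List ℕ} (h : l ≠ []) : fl (wd l) = some l := by
  induction l with
  | nil => exact absurd rfl h
  | cons i l ih =>
    cases l with
    | nil => rfl
    | cons j l =>
      have := ih (by simp)
      simp only [wd, fl, this]
      rfl

theorem flatN_wd {N : ℕ} {l : List ℕ} (h : l ≠ []) : flatN N (wd l) = l :=
  flatN_of_fl (fl_wd h)

theorem thy_append {E : Tm → Tm → Prop} (hE : IsThy E) {a b : List ℕ} (ha : a ≠ [])
    (hb : b ≠ []) : E (.m (wd a) (wd b)) (wd (a ++ b)) := by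
  induction a with
  | nil => exact absurd rfl ha
  | cons i a ih =>
    cases a with
    | nil =>
      obtain ⟨j, b, rfl⟩ := List.exists_cons_of_ne_nil hb
      exact hE.refl _
    | cons j a =>
      have := ih (by simp)
      refine hE.trans _ _ _ (hE.assoc _ _ _) ?_
      exact hE.mul _ _ _ _ (hE.refl _) this

theorem thy_wd {E : Tm → Tm → Prop} (hE : IsThy E) {t : Tm} {l : List ℕ} (h : fl t = some l) :
    E t (wd l) := by
  induction t generalizing l with
  | v i => simp only [fl, Option.some.injEq] at h; subst h; exact hE.refl _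
  | m s t hs ht =>
    obtain ⟨a, b, ha, hb, rfl⟩ := fl_m h
    exact hE.trans _ _ _ (hE.mul _ _ _ _ (hs ha) (ht hb))
      (thy_append hE (fl_ne_nil ha) (fl_ne_nil hb))
  | b t ht => simp [fl] at h

theorem ev_wd {S : Type u} [USg S] (φ : ℕ → S) {l : List ℕ} (h : l ≠ []) :
    ((ev φ (wd l) : S) : WithOne S) = lv φ l := ev_fl φ (fl_wd h)

theorem fl_rev (t : Tm) : fl (rev t) = (fl t).map List.reverse := by
  induction t with
  | v i => rfl
  | m s t hs ht =>
    simp only [rev, fl, hs, ht]
    cases fl s <;> cases fl t <;> simp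
  | b t ht => rfl

theorem flatten_replicate_reverse (N : ℕ) (l : List ℕ) :
    (List.replicate N l.reverse).flatten = (List.replicate N l).flatten.reverse := by
  rw [List.reverse_flatten]
  simp

theorem flatN_rev (N : ℕ) (t : Tm) : flatN N (rev t) = (flatN N t).reverse := by
  induction t with
  | v i => rfl
  | m s t hs ht => simp only [rev, flatN, hs, ht, List.reverse_append]
  | b t ht => simp only [rev, flatN, ht, flatten_replicate_reverse]

/-- `w` is an isoterm for the theory `E` -/
def Iso (E : Tm → Tm → Prop) (w : List ℕ) : Prop := ∀ t, E (wd w) t → fl t = some w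

theorem opE_wd {E : Tm → Tm → Prop} (hE : IsThy E) {w : List ℕ} (hw : w ≠ []) {t : Tm}
    (h : E (wd w) t) : opE E (wd w.reverse) (rev t) := by
  unfold opE
  rw [rev_rev]
  refine hE.trans _ _ _ ?_ h
  apply thy_wd hE
  rw [fl_rev, fl_wd (by simpa using hw)]
  simp

/-! ### The algebra `CC` and capped counts -/

/-- value of a count in `CC` -/
def cf : ℕ → CC
  | 0 => .i
  | 1 => .c
  | _ => .z

theorem cf_mul (a b : ℕ) : cf a * cf b = cf (a + b) := by
  match a, b with
  | 0, b => rw [Nat.zero_add]; cases h : cf b <;> rfl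
  | 1, 0 => rfl
  | 1, 1 => rfl
  | 1, b + 2 => rw [show 1 + (b + 2) = (b + 1) + 2 by ring]; rfl
  | a + 2, 0 => rfl
  | a + 2, 1 => rfl
  | a + 2, b + 2 => rw [show a + 2 + (b + 2) = (a + b + 2) + 2 by ring]; rfl

theorem cf_bar {N : ℕ} (hN : 2 ≤ N) (a : ℕ) : bar (cf a) = cf (N * a) := by
  match a with
  | 0 => rfl
  | 1 => obtain ⟨k, rfl⟩ : ∃ k, N = k + 2 := ⟨N - 2, by omega⟩; rw [Nat.mul_one]; rfl
  | a + 2 =>
    obtain ⟨k, rfl⟩ : ∃ k, N = k + 2 := ⟨N - 2, by omega⟩
    rw [show (k + 2) * (a + 2) = (k * (a + 2) + 2 * a + 2) + 2 by ring]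
    rfl

theorem ev_CC {N : ℕ} (hN : 2 ≤ N) (x : ℕ) (t : Tm) :
    ev (fun k => if k = x then CC.c else CC.i) t = cf ((flatN N t).count x) := by
  induction t with
  | v i =>
    by_cases h : i = x
    · subst h; simp [ev, flatN, cf]
    · simp [ev, flatN, h, cf]
  | m s t hs ht =>
    simp only [ev, flatN, List.count_append, hs, ht, cf_mul]
  | b t ht =>
    simp only [ev, flatN, ht, count_flatten_replicate]
    exact cf_bar hN _

theorem cf_eq_i {a : ℕ} (h : cf a = .i) : a = 0 := by
  match a, h with
  | 0, _ => rfl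
  | 1, h => exact absurd h (by decide)
  | a + 2, h => exact absurd h (by change CC.z ≠ _; decide)

theorem cf_eq_c {a : ℕ} (h : cf a = .c) : a = 1 := by
  match a, h with
  | 0, h => exact absurd h (by decide)
  | 1, _ => rfl
  | a + 2, h => exact absurd h (by change CC.z ≠ _; decide)

theorem count_zero_of {N : ℕ} (hN : 2 ≤ N) {s t : Tm} (h : Sat CC s t) {x : ℕ}
    (hx : (flatN N s).count x = 0) : (flatN N t).count x = 0 := by
  have := h (fun k => if k = x then CC.c else CC.i)
  rw [ev_CC hN, ev_CC hN, hx] at this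
  exact cf_eq_i this.symm

theorem count_one_of {N : ℕ} (hN : 2 ≤ N) {s t : Tm} (h : Sat CC s t) {x : ℕ}
    (hx : (flatN N s).count x = 1) : (flatN N t).count x = 1 := by
  have := h (fun k => if k = x then CC.c else CC.i)
  rw [ev_CC hN, ev_CC hN, hx] at this
  exact cf_eq_c this.symm

theorem perm_of_CC {w : List ℕ} (hw : w ≠ []) (hnd : w.Nodup) {t : Tm} (h : Sat CC (wd w) t) :
    ∃ l, fl t = some l ∧ l.Perm w := by
  have hc : ∀ x, (flatN 3 t).count x = w.count x := by
    intro x
    by_cases hx : x ∈ w
    · have h1 : w.count x = 1 := List.count_eq_one_of_mem hnd hx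
      rw [h1]
      apply count_one_of (by norm_num) h
      rw [flatN_wd hw, h1]
    · have h1 : w.count x = 0 := List.count_eq_zero_of_not_mem hx
      rw [h1]
      apply count_zero_of (by norm_num) h
      rw [flatN_wd hw, h1]
  rcases hfl : fl t with _ | l
  · exfalso
    obtain ⟨v, hv⟩ := exists_count_of_fl_none (N := 3) (by norm_num) hfl
    rw [hc] at hv
    have := List.nodup_iff_count_le_one.1 hnd v
    omega
  · refine ⟨l, rfl, ?_⟩
    rw [List.perm_iff_count]
    intro x
    rw [← hc x, flatN_of_fl hfl]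

/-! ### The nilpotent algebra of the factors of a word -/

/-- the factors of the word `w` (the empty word acts as zero) -/
def BW (w : List ℕ) : Type := {l : List ℕ // l <:+: w}

/-- concatenate if the result is a factor -/
def bmul (w a b : List ℕ) : List ℕ :=
  if a ≠ [] ∧ b ≠ [] ∧ (a ++ b) <:+: w then a ++ b else []

theorem bmul_infix (w a b : List ℕ) : bmul w a b <:+: w := by
  unfold bmul
  split
  · rename_i h; exact h.2.2
  · exact List.nil_infix

theorem bmul_assoc (w a b c : List ℕ) : bmul w (bmul w a b) c = bmul w a (bmul w b c) := by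
  have key1 : bmul w (bmul w a b) c = if a ≠ [] ∧ b ≠ [] ∧ c ≠ [] ∧ (a ++ b ++ c) <:+: w then
      a ++ b ++ c else [] := by
    unfold bmul
    by_cases h : a ≠ [] ∧ b ≠ [] ∧ (a ++ b) <:+: w
    · rw [if_pos h]
      simp [h.1, h.2.1]
    · rw [if_neg h]
      rw [if_neg (by simp), if_neg]
      rintro ⟨h1, h2, h3, h4⟩
      exact h ⟨h1, h2, (List.infix_append' [] (a ++ b) c |>.trans h4)⟩
  have key2 : bmul w a (bmul w b c) = if a ≠ [] ∧ b ≠ [] ∧ c ≠ [] ∧ (a ++ b ++ c) <:+: w then
      a ++ b ++ c else [] := by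
    unfold bmul
    by_cases h : b ≠ [] ∧ c ≠ [] ∧ (b ++ c) <:+: w
    · rw [if_pos h]
      simp [h.1, h.2.1]
    · rw [if_neg h]
      rw [if_neg (by simp), if_neg]
      rintro ⟨h1, h2, h3, h4⟩
      refine h ⟨h2, h3, ?_⟩
      refine List.IsInfix.trans ?_ h4
      exact ⟨a, [], by simp⟩
  rw [key1, key2]

instance (w : List ℕ) : USg (BW w) where
  mul a b := ⟨bmul w a.1 b.1, bmul_infix w _ _⟩
  mul_assoc a b c := Subtype.ext (bmul_assoc w _ _ _)
  bar _ := ⟨[], List.nil_infix⟩

theorem BW_mul_val {w : List ℕ} (a b : BW w) : (a * b).1 = bmul w a.1 b.1 := rfl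

theorem BW_bar_val {w : List ℕ} (a : BW w) : (bar a).1 = [] := rfl

theorem bmul_ne {w a b : List ℕ} (h : bmul w a b ≠ []) : a ≠ [] ∧ b ≠ [] ∧
    bmul w a b = a ++ b := by
  unfold bmul at h ⊢
  split at h
  · rename_i h'
    exact ⟨h'.1, h'.2.1, if_pos h'⟩
  · exact absurd rfl h

/-- left multiplication by a possibly empty word -/
def addL (a : List ℕ) (t : Tm) : Tm := if a = [] then t else .m (wd a) t

/-- right multiplication by a possibly empty word -/
def addR (a : List ℕ) (t : Tm) : Tm := if a = [] then t else .m t (wd a)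

theorem fl_addL {a : List ℕ} {t : Tm} {l : List ℕ} (h : fl t = some l) :
    fl (addL a t) = some (a ++ l) := by
  unfold addL
  split
  · rename_i h'; subst h'; simpa using h
  · rename_i h'; simp [fl, fl_wd h', h]

theorem fl_addR {a : List ℕ} {t : Tm} {l : List ℕ} (h : fl t = some l) :
    fl (addR a t) = some (l ++ a) := by
  unfold addR
  split
  · rename_i h'; subst h'; simpa using h
  · rename_i h'; simp [fl, fl_wd h', h]

theorem fl_addL' {a : List ℕ} {t : Tm} {l : List ℕ} (h : fl (addL a t) = some l) :
    ∃ l', fl t = some l' ∧ l = a ++ l' := by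
  unfold addL at h
  split at h
  · rename_i h'; subst h'; exact ⟨l, h, rfl⟩
  · rename_i h'
    obtain ⟨x, y, hx, hy, rfl⟩ := fl_m h
    rw [fl_wd h'] at hx
    exact ⟨y, hy, by rw [Option.some.inj hx]⟩

theorem fl_addR' {a : List ℕ} {t : Tm} {l : List ℕ} (h : fl (addR a t) = some l) :
    ∃ l', fl t = some l' ∧ l = l' ++ a := by
  unfold addR at h
  split at h
  · rename_i h'; subst h'; exact ⟨l, h, by simp⟩
  · rename_i h'
    obtain ⟨x, y, hx, hy, rfl⟩ := fl_m h
    rw [fl_wd h'] at hy
    exact ⟨x, hx, by rw [Option.some.inj hy]⟩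

theorem thy_addL {E : Tm → Tm → Prop} (hE : IsThy E) (a : List ℕ) {s t : Tm} (h : E s t) :
    E (addL a s) (addL a t) := by
  unfold addL
  split
  · exact h
  · exact hE.mul _ _ _ _ (hE.refl _) h

theorem thy_addR {E : Tm → Tm → Prop} (hE : IsThy E) (a : List ℕ) {s t : Tm} (h : E s t) :
    E (addR a s) (addR a t) := by
  unfold addR
  split
  · exact h
  · exact hE.mul _ _ _ _ h (hE.refl _)

open Classical in
/-- If `w` is an isoterm for the theory `E`, then the algebra `BW w` satisfies `E`. -/
theorem BW_models {E : Tm → Tm → Prop} (hE : IsThy E) {w : List ℕ} (hiso : Iso E w) :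
    Models (BW w) E := by
  have main : ∀ (φ : ℕ → BW w) (s t : Tm), E s t → (ev φ s).1 ≠ [] → (ev φ t).1 = (ev φ s).1 := by
    intro φ s t hst hs
    set σ : ℕ → Tm := fun i => if (φ i).1 = [] then .b (.v 0) else wd (φ i).1 with hσ
    have lemA : ∀ s : Tm, (ev φ s).1 ≠ [] → fl (sb σ s) = some (ev φ s).1 := by
      intro s
      induction s with
      | v i =>
        intro h
        simp only [ev] at h
        simp only [sb, hσ, ev, if_neg h]
        exact fl_wd h
      | m s1 s2 h1 h2 =>
        intro h
        simp only [ev, BW_mul_val] at h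
        obtain ⟨ha, hb, hab⟩ := bmul_ne h
        simp only [sb, ev, BW_mul_val, hab, fl, h1 ha, h2 hb]
      | b s hs =>
        intro h
        exact absurd rfl h
    have lemB : ∀ (t : Tm) (l : List ℕ), fl (sb σ t) = some l → l <:+: w → (ev φ t).1 = l := by
      intro t
      induction t with
      | v i =>
        intro l hl hlw
        simp only [sb, hσ] at hl
        split at hl
        · simp [fl] at hl
        · rename_i h
          rw [fl_wd h] at hl
          exact Option.some.inj hl
      | m t1 t2 h1 h2 =>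
        intro l hl hlw
        obtain ⟨a, b, ha, hb, rfl⟩ := fl_m hl
        have e1 := h1 a ha (List.IsInfix.trans ⟨[], b, by simp⟩ hlw)
        have e2 := h2 b hb (List.IsInfix.trans ⟨a, [], by simp⟩ hlw)
        simp only [ev, BW_mul_val, e1, e2]
        unfold bmul
        rw [if_pos ⟨fl_ne_nil ha, fl_ne_nil hb, hlw⟩]
      | b t ht =>
        intro l hl hlw
        simp [sb, fl] at hl
    obtain ⟨α, β, hw⟩ := (ev φ s).2
    have h1 : fl (addR β (addL α (sb σ s))) = some w := by
      rw [fl_addR (fl_addL (lemA s hs)), hw]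
    have h2 : E (wd w) (addR β (addL α (sb σ t))) := by
      refine hE.trans _ _ _ (hE.symm _ _ (thy_wd hE h1)) ?_
      exact thy_addR hE _ (thy_addL hE _ (hE.subst _ _ _ hst))
    have h3 := hiso _ h2
    obtain ⟨l1, h4, h5⟩ := fl_addR' h3
    obtain ⟨l2, h6, h7⟩ := fl_addL' h4
    have h8 : l2 = (ev φ s).1 := by
      rw [h7, ← hw] at h5
      have := List.append_cancel_right h5
      exact (List.append_cancel_left this).symm
    rw [← h8]
    apply lemB t l2 h6
    rw [h8]
    exact (ev φ s).2
  intro s t hst φ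
  apply Subtype.ext
  by_cases h1 : (ev φ s).1 = []
  · by_cases h2 : (ev φ t).1 = []
    · rw [h1, h2]
    · exact main φ t s (hE.symm _ _ hst) h2
  · exact (main φ s t hst h1).symm

open Classical in
/-- the letters as elements of `BW w` -/
noncomputable def letB (w : List ℕ) (i : ℕ) : BW w :=
  if h : [i] <:+: w then ⟨[i], h⟩ else ⟨[], List.nil_infix⟩

theorem ev_letB {w l : List ℕ} (hl : l ≠ []) :
    (ev (letB w) (wd l)).1 = if l <:+: w then l else [] := by
  classical
  induction l with
  | nil => exact absurd rfl hl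
  | cons i l ih =>
    cases l with
    | nil =>
      simp only [wd, ev, letB]
      by_cases h : [i] <:+: w
      · simp [h]
      · simp [h]
    | cons j l =>
      have ih' := ih (by simp)
      simp only [wd, ev, BW_mul_val, ih']
      have hi : (letB w i).1 = if [i] <:+: w then [i] else [] := by
        simp only [letB]
        by_cases h : [i] <:+: w
        · simp [h]
        · simp [h]
      rw [hi]
      unfold bmul
      by_cases h : (i :: j :: l) <:+: w
      · have h1 : [i] <:+: w := List.IsInfix.trans ⟨[], j :: l, by simp⟩ h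
        have h2 : (j :: l) <:+: w := List.IsInfix.trans ⟨[i], [], by simp⟩ h
        rw [if_pos h1, if_pos h2, if_pos h, if_pos ⟨by simp, by simp, h⟩]
        rfl
      · rw [if_neg h]
        apply if_neg
        rintro ⟨h3, h4, h5⟩
        apply h
        by_cases h1 : [i] <:+: w
        · by_cases h2 : (j :: l) <:+: w
          · rw [if_pos h1, if_pos h2] at h5
            exact h5
          · exact absurd (if_neg h2) h4
        · exact absurd (if_neg h1) h3

end Pool.Agent.H66.Epi
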